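import Mathlib

/-! Orbits of maps on an abelian group and their topology. -/

namespace Pool.Agent.K351

open Cardinal Set Topology

universe u v

/-- The orbit `G_f = {g f : g ∈ G}` of `f : G → X`, where `(g f)(x) = f (x g)`; it is a subset of
the product space `X^G`. -/
def orbit {G : Type u} {X : Type v} [CommGroup G] (f : G → X) : Set (G → X) :=
  {h | ∃ g : G, h = fun x => f (x * g)}

/-- `f` is a Korovin mapping: `π_M (G_f) = X^M` for every countable `M ⊆ G`. -/
def IsKorovin {G : Type u} {X : Type v} [CommGroup G] (f : G → X) : Prop :=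
  ∀ M : Set G, M.Countable → ∀ a : G → X, ∃ g : G, ∀ x ∈ M, f (x * g) = a x

/-- `π_M (G_f) = X^M` for every `M ⊆ G` with `|M| < κ`. -/
def FullBelow {G : Type u} {X : Type v} [CommGroup G] (κ : Cardinal.{u}) (f : G → X) : Prop :=
  ∀ M : Set G, #M < κ → ∀ a : G → X, ∃ g : G, ∀ x ∈ M, f (x * g) = a x

variable {G : Type u} {X : Type v} [CommGroup G] [TopologicalSpace X]

/-- openness of a set of group elements in the topology of the orbit -/
def OpenIn (f : G → X) (U : Set G) : Prop :=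
  ∀ g ∈ U, ∃ (F : Finset G) (u : G → Set X), (∀ x ∈ F, IsOpen (u x) ∧ f (x * g) ∈ u x) ∧
    ∀ h, (∀ x ∈ F, f (x * h) ∈ u x) → h ∈ U

/-- the parametrisation of the orbit by the group -/
def par (f : G → X) (g : G) : orbit f := ⟨fun x => f (x * g), g, rfl⟩

lemma par_surj (f : G → X) : Function.Surjective (par f) := by
  rintro ⟨h, g, rfl⟩
  exact ⟨g, rfl⟩

lemma openIn_preimage (f : G → X) (U : Set (orbit f)) (hU : IsOpen U) :
    OpenIn f (par f ⁻¹' U) := by
  intro g hg
  obtain ⟨V, hV, rfl⟩ := isOpen_induced_iff.1 hU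
  obtain ⟨F, u, hFu, hsub⟩ := isOpen_pi_iff.1 hV _ hg
  refine ⟨F, u, fun x hx => hFu x hx, fun h hh => ?_⟩
  exact hsub (fun x hx => hh x hx)

lemma isOpen_image (f : G → X) (U : Set G) (hU : OpenIn f U) : IsOpen (par f '' U) := by
  rw [isOpen_iff_forall_mem_open]
  rintro _ ⟨g, hg, rfl⟩
  obtain ⟨F, u, hFu, hsub⟩ := hU g hg
  refine ⟨{h : orbit f | ∀ x ∈ F, h.1 x ∈ u x}, ?_, ?_, ?_⟩
  · intro h hh
    obtain ⟨k, rfl⟩ := par_surj f h
    exact ⟨k, hsub k hh, rfl⟩
  · have : {h : orbit f | ∀ x ∈ F, h.1 x ∈ u x} = ⋂ x ∈ F, {h : orbit f | h.1 x ∈ u x} := by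
      ext h; simp
    rw [this]
    refine isOpen_biInter_finset (fun x hx => ?_)
    exact (hFu x hx).1.preimage ((continuous_apply x).comp continuous_subtype_val)
  · intro x hx
    exact (hFu x hx).2

/-- a set closed in the topology of the orbit -/
def ClosedIn (f : G → X) (A : Set G) : Prop := OpenIn f Aᶜ

lemma isClosed_image (f : G → X) (hinj : Function.Injective (par f)) (A : Set G)
    (hA : ClosedIn f A) : IsClosed (par f '' A) := by
  rw [← isOpen_compl_iff]
  have : (par f '' A)ᶜ = par f '' Aᶜ := by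
    rw [Set.image_compl_eq ⟨hinj, par_surj f⟩]
  rw [this]
  exact isOpen_image f _ hA

/-- normality of the orbit in terms of the group -/
lemma exists_sep (f : G → X) [NormalSpace (orbit f)] (hinj : Function.Injective (par f))
    (A B : Set G) (hA : ClosedIn f A) (hB : ClosedIn f B) (hAB : Disjoint A B) :
    ∃ U V : Set G, OpenIn f U ∧ OpenIn f V ∧ A ⊆ U ∧ B ⊆ V ∧ Disjoint U V := by
  obtain ⟨U, V, hU, hV, hAU, hBV, hUV⟩ := normal_separation (isClosed_image f hinj A hA)
    (isClosed_image f hinj B hB) ((Set.disjoint_image_iff hinj).2 hAB)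
  exact ⟨par f ⁻¹' U, par f ⁻¹' V, openIn_preimage f U hU, openIn_preimage f V hV,
    fun a ha => hAU ⟨a, ha, rfl⟩, fun a ha => hBV ⟨a, ha, rfl⟩, hUV.preimage _⟩

end Pool.Agent.K351
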