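import Pool.Agent.K351.Club
import Pool.Agent.K351.Orbit

/-! First consequences of fullness. -/

namespace Pool.Agent.K351

open Cardinal Set Topology

universe u v

lemma exists_rec {I β : Type*} [LinearOrder I] (wf : WellFoundedLT I)
    (Q : ∀ i : I, (∀ j, j < i → β) → β → Prop)
    (h : ∀ i g, ∃ b, Q i g b) : ∃ f : I → β, ∀ i, Q i (fun j _ => f j) (f i) := by
  choose b hb using h
  refine ⟨wf.wf.fix (fun i g => b i g), fun i => ?_⟩
  rw [wf.wf.fix_eq]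
  exact hb i _

variable {G : Type u} {X : Type v} [CommGroup G] {κ : Cardinal.{u}} {f : G → X}

lemma add_lt' (hκ : ℵ₀ ≤ κ) {S T : Set G} (hS : #S < κ) (hT : #T < κ) :
    #(S ∪ T : Set G) < κ :=
  lt_of_le_of_lt (mk_union_le _ _) (add_lt_of_lt hκ hS hT)

lemma single_lt (hκ : ℵ₀ ≤ κ) (g : G) : #({g} : Set G) < κ := by
  rw [mk_singleton]; exact lt_of_lt_of_le one_lt_aleph0 hκ

/-- points outside a small set are separated from it by a coordinate -/
lemma sep_small (hκ : ℵ₀ ≤ κ) (hf : FullBelow κ f) (o c : X) {S : Set G} (hS : #S < κ) {g : G}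
    (hg : g ∉ S) : ∃ x, f (x * g) = o ∧ ∀ s ∈ S, f (x * s) = c := by
  classical
  obtain ⟨x, hx⟩ := hf (S ∪ {g}) (add_lt' hκ hS (single_lt hκ g)) (fun y => if y = g then o else c)
  refine ⟨x, ?_, fun s hs => ?_⟩
  · have := hx g (Or.inr rfl)
    rw [mul_comm]; simpa using this
  · have h1 := hx s (Or.inl hs)
    have h2 : s ≠ g := fun h => hg (h ▸ hs)
    rw [mul_comm]; simpa [h2] using h1

lemma par_inj [TopologicalSpace X] (hκ : ℵ₀ ≤ κ) (hf : FullBelow κ f) (o c : X) (hoc : o ≠ c) :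
    Function.Injective (par f) := by
  intro g h hgh
  by_contra hne
  obtain ⟨x, hx, hy⟩ := sep_small hκ hf o c (single_lt hκ h) (g := g) (by simpa using hne)
  have h1 := hy h rfl
  have h2 : f (x * g) = f (x * h) := congrFun (congrArg Subtype.val hgh) x
  exact hoc (by rw [← hx, h2, h1])

/-- a point avoiding a small set with prescribed values on a small set -/
lemma avoid (hκ : ℵ₀ ≤ κ) (hf : FullBelow κ f) (o c : X) (hoc : o ≠ c) {M S : Set G}
    (hM : #M < κ) (hS : #S < κ) : ∃ g, g ∉ S ∧ ∀ x ∈ M, f (x * g) = c := by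
  classical
  obtain ⟨g₀, hg₀⟩ := hf {1} (single_lt hκ 1) (fun _ => o)
  have hg₀' : f g₀ = o := by simpa using hg₀ 1 rfl
  obtain ⟨g, hg⟩ := hf (M ∪ (fun s => g₀ * s⁻¹) '' S)
    (add_lt' hκ hM (lt_of_le_of_lt mk_image_le hS)) (fun _ => c)
  refine ⟨g, fun hgS => ?_, fun x hx => hg x (Or.inl hx)⟩
  have h1 := hg (g₀ * g⁻¹) (Or.inr ⟨g, hgS, rfl⟩)
  rw [inv_mul_cancel_right, hg₀'] at h1
  exact hoc h1

variable [TopologicalSpace X]

lemma nbhd_inter {O : Set X} (hO : IsOpen O) {g : G} {A : Set G}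
    (h : ∃ x₁ x₂, f (x₁ * g) ∈ O ∧ f (x₂ * g) ∈ O ∧
      ∀ k ∈ A, f (x₁ * k) ∈ O → f (x₂ * k) ∈ O → False) :
    ∃ (F : Finset G) (u : G → Set X), (∀ x ∈ F, IsOpen (u x) ∧ f (x * g) ∈ u x) ∧
    ∀ h, (∀ x ∈ F, f (x * h) ∈ u x) → h ∈ Aᶜ := by
  classical
  obtain ⟨x₁, x₂, h1, h2, h3⟩ := h
  refine ⟨{x₁, x₂}, fun _ => O, ?_, ?_⟩
  · intro x hx
    rcases Finset.mem_insert.1 hx with rfl | hx
    · exact ⟨hO, h1⟩
    · rw [Finset.mem_singleton.1 hx]; exact ⟨hO, h2⟩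
  · intro k hk hkA
    exact h3 k hkA (hk x₁ (by simp)) (hk x₂ (by simp))

/-- sets of size less than `κ` are closed -/
lemma closed_small (hκ : ℵ₀ ≤ κ) (hf : FullBelow κ f) {O : Set X} (hO : IsOpen O) {o c : X}
    (ho : o ∈ O) (hc : c ∉ O) {S : Set G} (hS : #S < κ) : ClosedIn f S := by
  intro g hg
  obtain ⟨x, hx, hy⟩ := sep_small hκ hf o c hS hg
  refine nbhd_inter hO ⟨x, x, hx ▸ ho, hx ▸ ho, fun k hk h1 _ => ?_⟩
  rw [hy k hk] at h1
  exact hc h1

/-- closedness of a family which takes the value `c` at more and more places -/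
lemma closed_family {I : Type u} [LinearOrder I] (h : Good I) (hf : FullBelow (#I) f) {O : Set X}
    (hO : IsOpen O) {o c : X} (ho : o ∈ O) (hc : c ∉ O) (e : I → G) (a : I → G)
    (ha : ∀ i, ∀ j < i, f (e j * a i) = c) (hcov : ∀ g, ∃ j, f (e j * g) ∈ O) :
    ClosedIn f (range a) := by
  intro g hg
  obtain ⟨j, hj⟩ := hcov g
  have hS : #(a '' Iic j : Set G) < #I := lt_of_le_of_lt mk_image_le (h.seg' j)
  have hgS : g ∉ a '' Iic j := fun ⟨i, _, hi⟩ => hg ⟨i, hi⟩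
  obtain ⟨x, hx, hy⟩ := sep_small h.reg.aleph0_le hf o c hS hgS
  refine nbhd_inter hO ⟨x, e j, hx ▸ ho, hj, ?_⟩
  rintro k ⟨i, rfl⟩ h1 h2
  rcases lt_or_ge j i with hji | hij
  · rw [ha i j hji] at h2; exact hc h2
  · rw [hy _ ⟨i, hij, rfl⟩] at h1; exact hc h1

end Pool.Agent.K351
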