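import Mathlib

/-! Closing-off lemmas for well-orders of regular uncountable type. -/

namespace Pool.Agent.K351

open Cardinal Set

universe u

/-- the hypotheses on the index order: it is a well-order of regular uncountable cardinality
all of whose proper initial segments are smaller. -/
structure Good (I : Type u) [LinearOrder I] : Prop where
  wf : WellFoundedLT I
  reg : (#I).IsRegular
  unc : ℵ₀ < #I
  seg : ∀ i : I, #(Iio i) < #I

variable {I : Type u} [LinearOrder I]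

lemma Good.seg' (h : Good I) (i : I) : #(Iic i) < #I := by
  have h1 : Iic i = Iio i ∪ {i} := by
    ext j; simp [le_iff_lt_or_eq]
  rw [h1]
  refine lt_of_le_of_lt (mk_union_le _ _) ?_
  exact add_lt_of_lt h.reg.aleph0_le (h.seg i) (by rw [mk_singleton]; exact lt_trans one_lt_aleph0 h.unc)

lemma Good.bdd (h : Good I) (S : Set I) (hS : #S < #I) : ∃ b, ∀ s ∈ S, s < b := by
  by_contra hcon
  push Not at hcon
  have h1 : (⋃ s : S, Iic (s : I)) = Set.univ := by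
    ext j
    simp only [mem_iUnion, mem_Iic, mem_univ, iff_true]
    obtain ⟨s, hs, hj⟩ := hcon j
    exact ⟨⟨s, hs⟩, hj⟩
  have h2 : #(⋃ s : S, Iic (s : I)) < #I :=
    (card_iUnion_lt_iff_forall_of_isRegular h.reg hS).2 fun s => h.seg' s
  rw [h1, mk_univ] at h2
  exact lt_irrefl _ h2

lemma Good.iUnion_lt (h : Good I) {α : Type u} (i : I) (t : I → Set α) (ht : ∀ j, #(t j) < #I) :
    #{a : α | ∃ j, j ≤ i ∧ a ∈ t j} < #I := by
  have h1 : {a : α | ∃ j, j ≤ i ∧ a ∈ t j} = ⋃ s : Iic i, t (s : I) := by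
    ext a; simp
  rw [h1]
  exact (card_iUnion_lt_iff_forall_of_isRegular h.reg (h.seg' i)).2 fun s => ht s

lemma Good.exists_closed (h : Good I) (φ : I → Set I) (hφ : ∀ i, #(φ i) < #I) (i₀ : I) :
    ∃ δ, i₀ < δ ∧ (∀ γ < δ, ∀ j ∈ φ γ, j < δ) ∧ (∀ γ < δ, ∃ γ', γ < γ' ∧ γ' < δ) := by
  classical
  have step : ∀ i : I, ∃ b, i < b ∧ ∀ j ∈ {a : I | ∃ k, k ≤ i ∧ a ∈ φ k}, j < b := by
    intro i
    obtain ⟨b, hb⟩ := h.bdd _ (h.iUnion_lt i φ hφ)
    obtain ⟨c, hc⟩ := h.bdd ({i} : Set I) (by rw [mk_singleton]; exact lt_trans one_lt_aleph0 h.unc)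
    refine ⟨max b c, lt_max_of_lt_right (hc i rfl), fun j hj => lt_max_of_lt_left (hb j hj)⟩
  choose nx hnx1 hnx2 using step
  let d : ℕ → I := fun n => Nat.rec i₀ (fun _ x => nx x) n
  have hd1 : ∀ n, d (n + 1) = nx (d n) := fun n => rfl
  have hcount : (range d).Countable := countable_range d
  obtain ⟨b, hb⟩ := h.bdd (range d) (lt_of_le_of_lt hcount.le_aleph0 h.unc)
  have hb' : ∀ n, d n < b := fun n => hb _ ⟨n, rfl⟩
  obtain ⟨δ, hδ, hmin⟩ := h.wf.wf.has_min {b : I | ∀ n, d n < b} ⟨b, hb'⟩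
  have hle : ∀ γ < δ, ∃ n, γ ≤ d n := by
    intro γ hγ
    by_contra hcon
    push Not at hcon
    exact hmin γ hcon hγ
  refine ⟨δ, hδ 0, ?_, ?_⟩
  · intro γ hγ j hj
    obtain ⟨n, hn⟩ := hle γ hγ
    have := hnx2 (d n) j ⟨γ, hn, hj⟩
    exact lt_trans this (hδ (n + 1))
  · intro γ hγ
    obtain ⟨n, hn⟩ := hle γ hγ
    exact ⟨d (n + 1), lt_of_le_of_lt hn (hnx1 (d n)), hδ (n + 1)⟩

/-- a finite set below a limit point is bounded below it -/
lemma finite_bdd {δ i₀ : I} (h0 : i₀ < δ) (hlim : ∀ γ < δ, ∃ γ', γ < γ' ∧ γ' < δ)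
    {α : Type u} (R : Finset α) (P : α → I → Prop)
    (hmono : ∀ a γ γ', γ ≤ γ' → P a γ → P a γ')
    (hR : ∀ a ∈ R, ∃ γ < δ, P a γ) : ∃ γ < δ, i₀ ≤ γ ∧ ∀ a ∈ R, P a γ := by
  classical
  induction R using Finset.induction_on with
  | empty => exact ⟨i₀, h0, le_rfl, by simp⟩
  | insert a R ha ih =>
    obtain ⟨γ, hγ, hi, hγR⟩ := ih (fun b hb => hR b (Finset.mem_insert_of_mem hb))
    obtain ⟨γ', hγ', hγa⟩ := hR a (Finset.mem_insert_self _ _)
    refine ⟨max γ γ', max_lt hγ hγ', le_max_of_le_left hi, ?_⟩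
    intro b hb
    rcases Finset.mem_insert.1 hb with rfl | hb
    · exact hmono _ _ _ (le_max_right _ _) hγa
    · exact hmono _ _ _ (le_max_left _ _) (hγR b hb)

lemma card_finsets (h : Good I) {G β : Type u} (hβ : #β < #I) (A : Set G) (hA : #A < #I) :
    #{T : Finset (G × β) | ∀ p ∈ T, p.1 ∈ A} < #I := by
  classical
  have h1 : #{T : Finset (G × β) | ∀ p ∈ T, p.1 ∈ A} ≤ #(Finset (A × β)) := by
    let F : {T : Finset (G × β) | ∀ p ∈ T, p.1 ∈ A} → Finset (A × β) := fun T =>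
      T.1.attach.image (fun p => (⟨p.1.1, T.2 p.1 p.2⟩, p.1.2))
    refine mk_le_of_injective (f := F) ?_
    intro T T' hTT
    apply Subtype.ext
    have key : ∀ T : {T : Finset (G × β) | ∀ p ∈ T, p.1 ∈ A},
        T.1 = (F T).image (fun q => ((q.1 : G), q.2)) := by
      intro T
      ext p
      simp only [F, Finset.mem_image, Finset.mem_attach, true_and, Subtype.exists]
      constructor
      · intro hp
        exact ⟨_, ⟨p, hp, rfl⟩, rfl⟩
      · rintro ⟨q, ⟨p', hp', rfl⟩, rfl⟩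
        exact hp'
    rw [key T, key T', hTT]
  refine lt_of_le_of_lt h1 ?_
  have h2 : #(A × β) < #I := by
    rw [mk_prod, lift_id, lift_id]
    exact mul_lt_of_lt h.reg.aleph0_le hA hβ
  rcases finite_or_infinite (A × β) with hf | hi
  · exact lt_of_le_of_lt (le_of_lt (lt_aleph0_of_finite _)) h.unc
  · rw [mk_finset_of_infinite]
    exact h2

/-- reflection below a closed point -/
lemma Good.reflect (h : Good I) {G β : Type u} (hβ : #β < #I) (F : I → Finset G) (Q : Finset (G × β) → I → Prop)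
    (φ : I → Set I) (hφ : ∀ i, #(φ i) < #I) (i₀ : I) :
    ∃ δ, i₀ < δ ∧ (∀ γ < δ, ∀ j ∈ φ γ, j < δ) ∧ (∀ γ < δ, ∃ γ', γ < γ' ∧ γ' < δ) ∧
      ∀ T : Finset (G × β), (∀ p ∈ T, ∃ γ < δ, p.1 ∈ F γ) → Q T δ → ∃ γ < δ, i₀ ≤ γ ∧ Q T γ := by
  classical
  let ψ : Finset (G × β) → I := fun T => if hT : ∃ i, i₀ ≤ i ∧ Q T i then hT.choose else i₀
  have hψ : ∀ T i, i₀ ≤ i → Q T i → i₀ ≤ ψ T ∧ Q T (ψ T) := by
    intro T i hi hQ
    have hT : ∃ i, i₀ ≤ i ∧ Q T i := ⟨i, hi, hQ⟩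
    simp only [ψ, dif_pos hT]
    exact hT.choose_spec
  let A : I → Set G := fun i => {x | ∃ j, j ≤ i ∧ x ∈ F j}
  have hA : ∀ i, #(A i) < #I := fun i => by
    refine h.iUnion_lt i (fun j => (F j : Set G)) ?_
    intro j
    refine lt_of_le_of_lt (le_of_lt ?_) h.unc
    exact (Finset.finite_toSet (F j)).lt_aleph0
  let φ' : I → Set I := fun i => φ i ∪ ψ '' {T : Finset (G × β) | ∀ p ∈ T, p.1 ∈ A i}
  have hφ' : ∀ i, #(φ' i) < #I := by
    intro i
    refine lt_of_le_of_lt (mk_union_le _ _) (add_lt_of_lt h.reg.aleph0_le (hφ i) ?_)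
    exact lt_of_le_of_lt mk_image_le (card_finsets h hβ (A i) (hA i))
  obtain ⟨δ, h0, h1, h2⟩ := h.exists_closed φ' hφ' i₀
  refine ⟨δ, h0, fun γ hγ j hj => h1 γ hγ j (Or.inl hj), h2, ?_⟩
  intro T hT hQ
  obtain ⟨γ, hγ, -, hγT⟩ := finite_bdd h0 h2 T (fun p γ => p.1 ∈ A γ)
    (fun p γ γ' hle ⟨j, hj, hx⟩ => ⟨j, hj.trans hle, hx⟩)
    (fun p hp => by
      obtain ⟨γ, hγ, hx⟩ := hT p hp
      exact ⟨γ, hγ, γ, le_rfl, hx⟩)
  have h3 := hψ T δ h0.le hQ
  exact ⟨ψ T, h1 γ hγ _ (Or.inr ⟨T, hγT, rfl⟩), h3.1, h3.2⟩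

end Pool.Agent.K351
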