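import Pool.Agent.K351.Basic

/-! Separation axioms of the orbit and of the space. -/

namespace Pool.Agent.K351

open Cardinal Set Topology TopologicalSpace

universe u v

variable {G : Type u} {X : Type v} [CommGroup G] {κ : Cardinal.{u}} {f : G → X}
  [TopologicalSpace X]

/-- if the orbit is `T₁` then the space is not anti-discrete -/
lemma exists_open_of_T1 [Nontrivial X] (hκ : ℵ₀ ≤ κ) (hf : FullBelow κ f) [T1Space (orbit f)] :
    ∃ (O : Set X) (o c : X), IsOpen O ∧ o ∈ O ∧ c ∉ O := by
  classical
  obtain ⟨a, b, hab⟩ := exists_pair_ne X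
  obtain ⟨y, hy⟩ := hf {1} (single_lt hκ 1) (fun _ => a)
  obtain ⟨z, hz⟩ := hf {1} (single_lt hκ 1) (fun _ => b)
  have hy' : f y = a := by simpa using hy 1 rfl
  have hz' : f z = b := by simpa using hz 1 rfl
  have hne : par f y ≠ par f z := by
    intro h
    have := congrFun (congrArg Subtype.val h) 1
    simp only [par, one_mul, hy', hz'] at this
    exact hab this
  have hop : IsOpen ({par f z}ᶜ : Set (orbit f)) := isOpen_compl_singleton
  obtain ⟨F, u, hF, hFU⟩ := openIn_preimage f _ hop y hne
  have : ∃ x ∈ F, f (x * z) ∉ u x := by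
    by_contra hcon
    push Not at hcon
    exact hFU z hcon rfl
  obtain ⟨x, hx, hxz⟩ := this
  exact ⟨u x, f (x * y), f (x * z), (hF x hx).1, (hF x hx).2, hxz⟩

/-- if the orbit is regular then the space is `R₀` -/
lemma r0_of_regular (hκ : ℵ₀ ≤ κ) (hf : FullBelow κ f) [RegularSpace (orbit f)] (a z : X)
    (h : ∃ W : Set X, IsOpen W ∧ a ∈ W ∧ z ∉ W) : ∃ W : Set X, IsOpen W ∧ z ∈ W ∧ a ∉ W := by
  classical
  obtain ⟨W, hW, haW, hzW⟩ := h
  obtain ⟨y, hy⟩ := hf {1} (single_lt hκ 1) (fun _ => a)
  have hy' : f y = a := by simpa using hy 1 rfl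
  have hWo : OpenIn f {g | f g ∈ W} := by
    intro g hg
    refine ⟨{1}, fun _ => W, ?_, ?_⟩
    · intro x hx
      rw [Finset.mem_singleton.1 hx, one_mul]
      exact ⟨hW, hg⟩
    · intro k hk
      have := hk 1 (by simp)
      rwa [one_mul] at this
  have hopen := isOpen_image f _ hWo
  have hmem : par f y ∈ par f '' {g | f g ∈ W} := ⟨y, by simpa [hy'] using haW, rfl⟩
  obtain ⟨C, hC1, hC2, hC3⟩ := exists_mem_nhds_isClosed_subset (hopen.mem_nhds hmem)
  obtain ⟨O, hO1, hO2, hO3⟩ := mem_nhds_iff.1 hC1
  obtain ⟨F, u, hF, hFU⟩ := openIn_preimage f O hO2 y hO3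
  obtain ⟨k, hk⟩ := hf (F ∪ {1} : Finset G)
    (lt_of_lt_of_le (Finset.finite_toSet _).lt_aleph0 hκ) (fun x => if x = 1 then z else f (x * y))
  have hk1 : f k = z := by simpa using hk 1 (by simp)
  have hkC : par f k ∉ C := by
    intro hkC
    obtain ⟨k', hk', hkk'⟩ := hC3 hkC
    have := congrFun (congrArg Subtype.val hkk') 1
    simp only [par, one_mul] at this
    rw [hk1] at this
    rw [mem_ofPred_eq, this] at hk'
    exact hzW hk'
  obtain ⟨E, w, hE, hEC⟩ := openIn_preimage f Cᶜ hC2.isOpen_compl k hkC
  by_cases h1 : (1 : G) ∈ E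
  · refine ⟨w 1, (hE 1 h1).1, by simpa [hk1] using (hE 1 h1).2, fun haw => ?_⟩
    obtain ⟨g, hg⟩ := hf (F ∪ E ∪ {1} : Finset G)
      (lt_of_lt_of_le (Finset.finite_toSet _).lt_aleph0 hκ)
      (fun x => if x = 1 then a else if x ∈ F then f (x * y) else f (x * k))
    have hg1 : f g = a := by simpa using hg 1 (by simp)
    have hgO : g ∈ par f ⁻¹' O := by
      refine hFU g (fun x hx => ?_)
      by_cases hx1 : x = 1
      · subst hx1
        rw [one_mul, hg1, ← hy']
        simpa using (hF 1 hx).2
      · have := hg x (by simp [hx])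
        simp only [hx1, if_false, hx, if_true] at this
        rw [this]; exact (hF x hx).2
    have hgC : g ∈ par f ⁻¹' Cᶜ := by
      refine hEC g (fun x hx => ?_)
      by_cases hx1 : x = 1
      · subst hx1
        rw [one_mul, hg1]; exact haw
      · have := hg x (by simp [hx])
        by_cases hxF : x ∈ F
        · simp only [hx1, if_false, hxF, if_true] at this
          have h2 := hk x (by simp [hxF])
          simp only [hx1, if_false] at h2
          rw [this, ← h2]; exact (hE x hx).2
        · simp only [hx1, if_false, hxF] at this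
          rw [this]; exact (hE x hx).2
    exact hgC (hO1 hgO)
  · exfalso
    obtain ⟨g, hg⟩ := hf (F ∪ E ∪ {1} : Finset G)
      (lt_of_lt_of_le (Finset.finite_toSet _).lt_aleph0 hκ)
      (fun x => if x = 1 then a else if x ∈ F then f (x * y) else f (x * k))
    have hg1 : f g = a := by simpa using hg 1 (by simp)
    have hgO : g ∈ par f ⁻¹' O := by
      refine hFU g (fun x hx => ?_)
      by_cases hx1 : x = 1
      · subst hx1
        rw [one_mul, hg1, ← hy']
        simpa using (hF 1 hx).2
      · have := hg x (by simp [hx])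
        simp only [hx1, if_false, hx, if_true] at this
        rw [this]; exact (hF x hx).2
    have hgC : g ∈ par f ⁻¹' Cᶜ := by
      refine hEC g (fun x hx => ?_)
      have hx1 : x ≠ 1 := fun h => h1 (h ▸ hx)
      have := hg x (by simp [hx])
      by_cases hxF : x ∈ F
      · simp only [hx1, if_false, hxF, if_true] at this
        have h2 := hk x (by simp [hxF])
        simp only [hx1, if_false] at h2
        rw [this, ← h2]; exact (hE x hx).2
      · simp only [hx1, if_false, hxF] at this
        rw [this]; exact (hE x hx).2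
    exact hgC (hO1 hgO)

end Pool.Agent.K351
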