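import Pool.Agent.K351.Large
import Pool.Agent.K351.Separation

/-! A Jones type inequality for normal orbits. -/

namespace Pool.Agent.K351

open Cardinal Set Topology TopologicalSpace

universe u v

variable {G : Type u} {X : Type v} [CommGroup G] {κ : Cardinal.{u}} {f : G → X}
  [TopologicalSpace X]

/-- the box coded by a finite set of pairs -/
def Box {β : Type u} (f : G → X) (b : β → Set X) (T : Finset (G × β)) : Set G :=
  {g | ∀ q ∈ T, f (q.1 * g) ∈ b q.2}

omit [TopologicalSpace X] in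
/-- chain condition: there is no disjoint family of `κ` nonempty boxes -/
lemma chain_condition {I : Type u} [LinearOrder I] (h : Good I) (hf : FullBelow (#I) f)
    {β : Type u} (hβ : #β < #I) (b : β → Set X) (T : I → Finset (G × β))
    (hT : ∀ i, (Box f b (T i)).Nonempty) :
    ∃ i j, i ≠ j ∧ (Box f b (T i) ∩ Box f b (T j)).Nonempty := by
  classical
  have : Nonempty I := by
    by_contra hne
    have := not_nonempty_iff.1 hne
    have := h.unc
    rw [mk_eq_zero] at this
    exact absurd this (by simp)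
  let i₀ : I := Classical.arbitrary I
  choose g hg using hT
  let F : I → Finset G := fun i => (T i).image Prod.fst
  obtain ⟨δ, h0, -, h2, h3⟩ := h.reflect hβ F (fun (S : Finset (G × β)) i => S ⊆ T i)
    (fun _ => ∅) (fun i => by
      rw [mk_eq_zero]; exact lt_trans aleph0_pos h.unc) i₀
  obtain ⟨γ, hγ, -, hγT⟩ := h3 ((T δ).filter (fun q => ∃ γ < δ, q.1 ∈ F γ))
    (fun p hp => (Finset.mem_filter.1 hp).2) (Finset.filter_subset _ _)
  obtain ⟨k, hk⟩ := hf (F γ ∪ F δ : Finset G) (lt_trans (Finset.finite_toSet _).lt_aleph0 h.unc)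
    (fun x => if x ∈ F γ then f (x * g γ) else f (x * g δ))
  refine ⟨γ, δ, hγ.ne, k, ?_, ?_⟩
  · intro q hq
    have hqF : q.1 ∈ F γ := Finset.mem_image_of_mem _ hq
    have := hk q.1 (by simp [hqF])
    simp only [hqF, if_true] at this
    rw [this]
    exact hg γ q hq
  · intro q hq
    have hqF : q.1 ∈ F δ := Finset.mem_image_of_mem _ hq
    have := hk q.1 (by simp [hqF])
    by_cases hqγ : q.1 ∈ F γ
    · simp only [hqγ, if_true] at this
      rw [this]
      exact hg γ q (hγT (Finset.mem_filter.2 ⟨hq, γ, hγ, hqγ⟩))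
    · simp only [hqγ, if_false] at this
      rw [this]
      exact hg δ q hq

/-- boxes form a base -/
lemma exists_box {β : Type u} (b : β → Set X) (hb : IsTopologicalBasis (range b)) {U : Set G}
    (hU : OpenIn f U) {g : G} (hg : g ∈ U) : ∃ T : Finset (G × β), g ∈ Box f b T ∧
      Box f b T ⊆ U := by
  classical
  obtain ⟨F, u, hF, hFU⟩ := hU g hg
  have : ∀ x : G, x ∈ F → ∃ n : β, f (x * g) ∈ b n ∧ b n ⊆ u x := by
    intro x hx
    obtain ⟨_, ⟨n, rfl⟩, hn1, hn2⟩ := hb.exists_subset_of_mem_open (hF x hx).2 (hF x hx).1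
    exact ⟨n, hn1, hn2⟩
  choose n hn1 hn2 using this
  refine ⟨F.attach.image (fun x => (x.1, n x.1 x.2)), ?_, ?_⟩
  · intro q hq
    obtain ⟨x, -, rfl⟩ := Finset.mem_image.1 hq
    exact hn1 x.1 x.2
  · intro k hk
    refine hFU k (fun x hx => ?_)
    exact hn2 x hx (hk (x, n x hx) (Finset.mem_image.2 ⟨⟨x, hx⟩, Finset.mem_attach _ _, rfl⟩))

omit [TopologicalSpace X] in
/-- a maximal disjoint family of nonempty boxes inside `U` -/
lemma exists_maximal_family {β : Type u} (f : G → X) (b : β → Set X) (U : Set G) :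
    ∃ W : Set (Finset (G × β)), (∀ T ∈ W, (Box f b T).Nonempty ∧ Box f b T ⊆ U) ∧
      (W.PairwiseDisjoint (Box f b)) ∧
      ∀ T, (Box f b T).Nonempty → Box f b T ⊆ U → ∃ S ∈ W, (Box f b T ∩ Box f b S).Nonempty := by
  classical
  obtain ⟨W, hW⟩ := zorn_subset {W : Set (Finset (G × β)) |
    (∀ T ∈ W, (Box f b T).Nonempty ∧ Box f b T ⊆ U) ∧ W.PairwiseDisjoint (Box f b)} (by
      intro c hc hchain
      refine ⟨⋃₀ c, ⟨?_, ?_⟩, fun s hs => subset_sUnion_of_mem hs⟩
      · rintro T ⟨s, hs, hT⟩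
        exact (hc hs).1 T hT
      · rintro S ⟨s, hs, hS⟩ T ⟨t, ht, hT⟩ hne
        rcases hchain.total hs ht with hst | hts
        · exact (hc ht).2 (hst hS) hT hne
        · exact (hc hs).2 hS (hts hT) hne)
  refine ⟨W, hW.prop.1, hW.prop.2, ?_⟩
  intro T hT hTU
  by_contra hcon
  push Not at hcon
  have hTW : T ∉ W := fun h => by
    have := hcon T h
    rw [inter_self] at this
    exact hT.ne_empty this
  have hins : insert T W ∈ {W : Set (Finset (G × β)) |
    (∀ T ∈ W, (Box f b T).Nonempty ∧ Box f b T ⊆ U) ∧ W.PairwiseDisjoint (Box f b)} := by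
    refine ⟨?_, ?_⟩
    · rintro S (rfl | hS)
      · exact ⟨hT, hTU⟩
      · exact hW.prop.1 S hS
    · refine hW.prop.2.insert (fun S hS _ => ?_)
      exact Set.disjoint_iff_inter_eq_empty.2 (hcon S hS)
  have := hW.le_of_ge hins (subset_insert T W)
  exact hTW (this (mem_insert T W))

lemma nbhd_inter' {O O' : Set X} (hO : IsOpen O) (hO' : IsOpen O') {g : G} {A : Set G}
    (h : ∃ x₁ x₂, f (x₁ * g) ∈ O ∧ f (x₂ * g) ∈ O' ∧
      ∀ k ∈ A, f (x₁ * k) ∈ O → f (x₂ * k) ∈ O' → False) :
    ∃ (F : Finset G) (u : G → Set X), (∀ x ∈ F, IsOpen (u x) ∧ f (x * g) ∈ u x) ∧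
    ∀ h, (∀ x ∈ F, f (x * h) ∈ u x) → h ∈ Aᶜ := by
  classical
  obtain ⟨x₁, x₂, h1, h2, h3⟩ := h
  refine ⟨{x₁, x₂}, fun y => (if y = x₁ then O else Set.univ) ∩ (if y = x₂ then O' else Set.univ),
    ?_, ?_⟩
  · intro x _
    refine ⟨IsOpen.inter ?_ ?_, ?_, ?_⟩
    · split_ifs
      exacts [hO, isOpen_univ]
    · split_ifs
      exacts [hO', isOpen_univ]
    · split_ifs with hx
      · rw [hx]; exact h1
      · trivial
    · split_ifs with hx
      · rw [hx]; exact h2
      · trivial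
  · intro k hk hkA
    have e1 := (hk x₁ (by simp)).1
    have e2 := (hk x₂ (by simp)).2
    rw [if_pos rfl] at e1 e2
    exact h3 k hkA e1 e2

/-- a subset of the orbit of cardinality `#I` all of whose subsets are closed -/
lemma exists_discrete {I : Type u} [LinearOrder I] (h : Good I) (hf : FullBelow (#I) f)
    {O : Set X} (hO : IsOpen O) {o c : X} (ho : o ∈ O) (hc : c ∉ O)
    (hR : ∀ a z : X, (∃ W : Set X, IsOpen W ∧ a ∈ W ∧ z ∉ W) → ∃ W : Set X, IsOpen W ∧ z ∈ W ∧ a ∉ W) :
    ∃ D : Set G, #I ≤ #D ∧ ∀ S ⊆ D, ClosedIn f S := by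
  classical
  have hoc : o ≠ c := fun h => hc (h ▸ ho)
  by_cases hcase : ∀ M : Set G, #M ≤ #I → ∀ a : G → X, ∃ g : G, ∀ x ∈ M,
      ∀ W : Set X, IsOpen W → (f (x * g) ∈ W ↔ a x ∈ W)
  · obtain ⟨p⟩ : Nonempty (I ↪ G) := Cardinal.le_def _ _ |>.1 (card_group_ge hoc hf)
    refine ⟨range p, (mk_range_eq p p.injective).ge, fun S hS => ?_⟩
    intro g hg
    have hScard : #(S ∪ {g} : Set G) ≤ #I := by
      refine (mk_union_le _ _).trans ?_
      have h1 : #S ≤ #I := (mk_le_mk_of_subset hS).trans mk_range_le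
      rw [mk_singleton]
      exact add_le_of_le h.reg.aleph0_le h1 (one_lt_aleph0.le.trans h.reg.aleph0_le)
    obtain ⟨x, hx⟩ := hcase (S ∪ {g}) hScard (fun y => if y = g then o else c)
    refine nbhd_inter hO ⟨x, x, ?_, ?_, fun k hk h1 _ => ?_⟩
    · have := (hx g (Or.inr rfl) O hO).2 (by simpa using ho)
      rwa [mul_comm]
    · have := (hx g (Or.inr rfl) O hO).2 (by simpa using ho)
      rwa [mul_comm]
    · rw [mul_comm] at h1
      have h2 : k ≠ g := fun h => hg (h ▸ hk)
      have := (hx k (Or.inl hk) O hO).1 h1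
      simp only [h2, if_false] at this
      exact hc this
  · push Not at hcase
    obtain ⟨M, hM, a, hMa⟩ := hcase
    have hMne : M.Nonempty := by
      obtain ⟨x, hx, -⟩ := hMa 1
      exact ⟨x, hx⟩
    have : Nonempty M := hMne.to_subtype
    obtain ⟨m, hm⟩ : ∃ m : I → M, Function.Surjective m := by
      obtain ⟨e⟩ := Cardinal.le_def _ _ |>.1 hM
      exact ⟨Function.invFun e, Function.invFun_surjective e.injective⟩
    have hd : ∀ i : I, ∃ d : G, ∀ j < i, f (m j * d) = a (m j) := by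
      intro i
      obtain ⟨d, hd⟩ := hf ((fun j => (m j : G)) '' Iio i) (lt_of_le_of_lt mk_image_le (h.seg i)) a
      exact ⟨d, fun j hj => hd _ ⟨j, hj, rfl⟩⟩
    choose d hd using hd
    -- separation of a point from the tail of the family
    have key : ∀ g : G, ∃ (j : I) (W : Set X), IsOpen W ∧ f (m j * g) ∈ W ∧ a (m j) ∉ W := by
      intro g
      obtain ⟨x, hx, W, hW, hxW⟩ := hMa g
      obtain ⟨j, hj⟩ := hm ⟨x, hx⟩
      have hjx : (m j : G) = x := by rw [hj]
      rcases hxW with ⟨h1, h2⟩ | ⟨h1, h2⟩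
      · exact ⟨j, W, hW, by rw [hjx]; exact h1, by rw [hjx]; exact h2⟩
      · obtain ⟨W', hW', h3, h4⟩ := hR _ _ ⟨W, hW, h2, h1⟩
        exact ⟨j, W', hW', by rw [hjx]; exact h3, by rw [hjx]; exact h4⟩
    refine ⟨range d, ?_, ?_⟩
    · by_contra hlt
      push Not at hlt
      have hcover : (⋃ y : range d, d ⁻¹' {(y : G)}) = Set.univ := by
        ext i; simp
      have : ¬ (∀ y : range d, #(d ⁻¹' {(y : G)}) < #I) := by
        intro hall
        have h1 := (card_iUnion_lt_iff_forall_of_isRegular (t := fun y : range d => d ⁻¹' {(y : G)}) h.reg hlt).2 hall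
        rw [hcover, mk_univ] at h1
        exact lt_irrefl _ h1
      push Not at this
      obtain ⟨⟨y, i, rfl⟩, hy⟩ := this
      obtain ⟨j, W, hW, h1, h2⟩ := key (d i)
      have hnb : ¬ (d ⁻¹' {d i} ⊆ Iic j) := by
        intro hsub
        exact absurd (lt_of_le_of_lt (mk_le_mk_of_subset hsub) (h.seg' j)) (not_lt.2 hy)
      obtain ⟨k, hk, hkj⟩ := Set.not_subset.1 hnb
      have hjk : j < k := not_le.1 hkj
      have h3 := hd k j hjk
      rw [show d k = d i from hk] at h3
      rw [h3] at h1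
      exact h2 h1
    · intro S hS g hg
      obtain ⟨j, W, hW, h1, h2⟩ := key g
      have hsm : #(d '' Iic j : Set G) < #I := lt_of_le_of_lt mk_image_le (h.seg' j)
      have hsm' : #(S ∩ d '' Iic j : Set G) < #I :=
        lt_of_le_of_lt (mk_le_mk_of_subset inter_subset_right) hsm
      obtain ⟨x, hx, hy⟩ := sep_small h.reg.aleph0_le hf o c hsm' (g := g) (fun hh => hg hh.1)
      refine nbhd_inter' hO hW ⟨x, m j, by rw [hx]; exact ho, h1, fun k hkS hkO hkW => ?_⟩
      obtain ⟨i, rfl⟩ := hS hkS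
      rcases lt_or_ge j i with hji | hij
      · rw [hd i j hji] at hkW; exact h2 hkW
      · rw [hy _ ⟨hkS, i, hij, rfl⟩] at hkO; exact hc hkO

/-- the closure of a union of boxes, in terms of boxes -/
def Near {β : Type u} (f : G → X) (b : β → Set X) (W : Set (Finset (G × β))) : Set G :=
  {g | ∀ T : Finset (G × β), g ∈ Box f b T → ∃ S ∈ W, (Box f b T ∩ Box f b S).Nonempty}

theorem jones {μ : Cardinal.{u}} (hμ : ℵ₀ ≤ μ) (hf : FullBelow (Order.succ μ) f)
    {β : Type u} (hβ : #β ≤ μ) (b : β → Set X) (hb : IsTopologicalBasis (range b))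
    [Nontrivial X] [T4Space (orbit f)] : 2 ^ Order.succ μ ≤ #G ^ μ := by
  classical
  have hreg : (Order.succ μ).IsRegular := isRegular_succ hμ
  have hunc : ℵ₀ < Order.succ μ := lt_of_le_of_lt hμ (Order.lt_succ μ)
  set I := (Order.succ μ).ord.ToType with hI
  have hgood : Good I := good_toType hreg hunc
  have hcard : #I = Order.succ μ := mk_ord_toType _
  have hf' : FullBelow (#I) f := by rw [hcard]; exact hf
  have hκ : ℵ₀ ≤ #I := hgood.reg.aleph0_le
  obtain ⟨O, o, c, hO, ho, hc⟩ := exists_open_of_T1 hκ hf'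
  have hoc : o ≠ c := fun h => hc (h ▸ ho)
  obtain ⟨D, hDcard, hD⟩ := exists_discrete hgood hf' hO ho hc (r0_of_regular hκ hf')
  have hGcard : #I ≤ #G := card_group_ge hoc hf'
  have hinj := par_inj hκ hf' o c hoc
  -- separate each subset of `D` from its complement
  have hsep : ∀ S : Set D, ∃ W : Set (Finset (G × β)), #W ≤ μ ∧
      ∀ d : D, d ∈ S ↔ (d : G) ∈ Near f b W := by
    intro S
    obtain ⟨U, V, hU, hV, hSU, hSV, hUV⟩ := exists_sep f hinj (Subtype.val '' S)
      (Subtype.val '' Sᶜ) (hD _ (by rintro _ ⟨d, -, rfl⟩; exact d.2))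
      (hD _ (by rintro _ ⟨d, -, rfl⟩; exact d.2))
      ((Set.disjoint_image_iff Subtype.val_injective).2 disjoint_compl_right)
    obtain ⟨W, hW1, hW2, hW3⟩ := exists_maximal_family f b U
    refine ⟨W, ?_, ?_⟩
    · by_contra hlt
      push Not at hlt
      have h1 : #I ≤ #W := by rw [hcard]; exact Order.succ_le_of_lt hlt
      obtain ⟨e⟩ := Cardinal.le_def _ _ |>.1 h1
      obtain ⟨i, j, hij, hne⟩ := chain_condition hgood hf'
        (lt_of_le_of_lt hβ (by rw [hcard]; exact Order.lt_succ μ)) b (fun i => (e i).1)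
        (fun i => (hW1 _ (e i).2).1)
      have hne' : (e i).1 ≠ (e j).1 := fun h => hij (e.injective (Subtype.ext h))
      exact hne.ne_empty (Set.disjoint_iff_inter_eq_empty.1 (hW2 (e i).2 (e j).2 hne'))
    · intro d
      constructor
      · intro hd T hT
        obtain ⟨T', hT', hT'U⟩ := exists_box b hb hU (hSU ⟨d, hd, rfl⟩)
        have hsub : Box f b (T ∪ T') ⊆ U := by
          intro k hk
          exact hT'U (fun q hq => hk q (Finset.mem_union_right _ hq))
        have hmem : (d : G) ∈ Box f b (T ∪ T') := by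
          intro q hq
          rcases Finset.mem_union.1 hq with h | h
          · exact hT q h
          · exact hT' q h
        obtain ⟨S', hS', k, hk1, hk2⟩ := hW3 (T ∪ T') ⟨d, hmem⟩ hsub
        exact ⟨S', hS', k, fun q hq => hk1 q (Finset.mem_union_left _ hq), hk2⟩
      · intro hd
        by_contra hdS
        obtain ⟨T, hT, hTV⟩ := exists_box b hb hV (hSV ⟨d, hdS, rfl⟩)
        obtain ⟨S', hS', k, hk1, hk2⟩ := hd T hT
        exact Set.disjoint_left.1 hUV ((hW1 S' hS').2 hk2) (hTV hk1)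
  choose W hW1 hW2 using hsep
  have hWinj : Function.Injective (fun S : Set D =>
      (⟨W S, hW1 S⟩ : {t : Set (Finset (G × β)) // #t ≤ μ})) := by
    intro S S' hSS
    have hWW : W S = W S' := congrArg Subtype.val hSS
    ext d
    rw [hW2 S d, hW2 S' d, hWW]
  have hGinf : Infinite G := by
    rw [Cardinal.infinite_iff]
    exact hκ.trans hGcard
  have hβne : Nonempty β := by
    obtain ⟨_, ⟨n, rfl⟩, -, -⟩ := hb.exists_subset_of_mem_open (mem_univ c) isOpen_univ
    exact ⟨n⟩
  have hinf : Infinite (G × β) := Prod.infinite_of_left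
  have hK : #(Finset (G × β)) ≤ #G := by
    rw [mk_finset_of_infinite, mk_prod, lift_id, lift_id]
    have h1 : #β ≤ #G := hβ.trans ((Order.le_succ μ).trans (hcard.symm.le.trans hGcard))
    exact mul_le_of_le (Cardinal.aleph0_le_mk G) le_rfl h1
  calc 2 ^ Order.succ μ = 2 ^ #I := by rw [hcard]
    _ ≤ 2 ^ #D := power_le_power_left two_ne_zero hDcard
    _ = #(Set D) := (mk_set).symm
    _ ≤ #{t : Set (Finset (G × β)) // #t ≤ μ} := mk_le_of_injective hWinj
    _ ≤ #(Finset (G × β)) ^ μ := mk_bounded_set_le_of_infinite _ _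
    _ ≤ #G ^ μ := power_le_power_right hK

end Pool.Agent.K351
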