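import Pool.Agent.K351.Small

/-! Orbits which are full above the weight of the space are not normal. -/

namespace Pool.Agent.K351

open Cardinal Set Topology TopologicalSpace

universe u v

variable {G : Type u} {X : Type v} [CommGroup G] {f : G → X} [TopologicalSpace X]

omit [TopologicalSpace X] in
lemma FullBelow.mono {κ κ' : Cardinal.{u}} (h : κ' ≤ κ) (hf : FullBelow κ f) : FullBelow κ' f :=
  fun M hM a => hf M (lt_of_lt_of_le hM h) a

omit [TopologicalSpace X] in
lemma card_group_ge {κ : Cardinal.{u}} {o c : X} (hoc : o ≠ c) (hf : FullBelow κ f) :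
    κ ≤ #G := by
  classical
  by_contra hlt
  push Not at hlt
  have h1 : #(univ : Set G) < κ := by rw [mk_univ]; exact hlt
  obtain ⟨g, hg⟩ := hf Set.univ h1 (fun x => if f (x * x) = o then c else o)
  have := hg g (mem_univ _)
  by_cases hx : f (g * g) = o
  · simp only [hx, if_true] at this; exact hoc this
  · simp only [hx, if_false] at this

theorem not_normal_of_full_succ {κ : Cardinal.{u}} (hreg : κ.IsRegular) (hunc : ℵ₀ < κ)
    (hf : FullBelow (Order.succ κ) f) {β : Type u} (hβ : #β < κ) (b : β → Set X)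
    (hb : IsTopologicalBasis (range b))
    {O : Set X} (hO : IsOpen O) {o c : X} (ho : o ∈ O) (hc : c ∉ O) :
    ¬ NormalSpace (orbit f) := by
  classical
  intro hn
  have hoc : o ≠ c := fun h => hc (h ▸ ho)
  set I := κ.ord.ToType with hI
  have hgood : Good I := good_toType hreg hunc
  have hcard : #I = κ := mk_ord_toType _
  have hf' : FullBelow κ f := hf.mono (Order.le_succ κ)
  have hκ : ℵ₀ ≤ κ := hreg.aleph0_le
  have hκ' : ℵ₀ ≤ Order.succ κ := hκ.trans (Order.le_succ κ)
  -- an injection of the index set into the group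
  have hIG : #I ≤ #G := by rw [hcard]; exact card_group_ge hoc hf'
  obtain ⟨p⟩ : Nonempty (I ↪ G) := Cardinal.le_def _ _ |>.1 hIG
  -- the closed set `D`
  have hd : ∀ i : I, ∃ d : G, (∀ j < i, f (p j * d) = c) ∧ f (p i * d) = o := by
    intro i
    obtain ⟨d, hd⟩ := hf' (p '' Iic i) (lt_of_le_of_lt mk_image_le
      ((hgood.seg' i).trans_le hcard.le)) (fun x => if x = p i then o else c)
    refine ⟨d, fun j hj => ?_, ?_⟩
    · have := hd (p j) ⟨j, hj.le, rfl⟩
      have hne : p j ≠ p i := fun h => hj.ne (p.injective h)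
      simpa [hne] using this
    · simpa using hd (p i) ⟨i, le_refl i, rfl⟩
  choose d hd1 hd2 using hd
  have hDsmall : #(range d) < Order.succ κ :=
    Order.lt_succ_of_le (mk_range_le.trans hcard.le)
  have hD : ClosedIn f (range d) := closed_small hκ' hf hO ho hc hDsmall
  have hB : ClosedIn f {g | ∀ i, f (p i * g) ∉ O} := by
    intro g hg
    simp only [mem_compl_iff, mem_ofPred_eq, not_forall, not_not] at hg
    obtain ⟨i, hi⟩ := hg
    exact nbhd_inter hO ⟨p i, p i, hi, hi, fun k hk h1 _ => hk i h1⟩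
  have hdisj : Disjoint (range d) {g | ∀ i, f (p i * g) ∉ O} := by
    rw [Set.disjoint_left]
    rintro _ ⟨i, rfl⟩ h
    exact h i (by rw [hd2 i]; exact ho)
  obtain ⟨U, V, hU, hV, hDU, hBV, hUV⟩ :=
    exists_sep f (par_inj hκ hf' o c hoc) _ _ hD hB hdisj
  choose F u hF hFU using fun i => hU (d i) (hDU ⟨i, rfl⟩)
  haveI : Nonempty I := by
    by_contra hne
    haveI := not_nonempty_iff.1 hne
    have := hgood.unc
    rw [mk_eq_zero] at this
    exact absurd this (by simp)
  let i₀ : I := Classical.arbitrary I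
  -- closing off
  obtain ⟨δ, h0, h1, h2, h3⟩ := hgood.reflect (by rw [hcard]; exact hβ) F
    (fun (T : Finset (G × β)) i => ∀ q ∈ T, f (q.1 * d i) ∈ b q.2)
    (fun γ => {j | p j ∈ F γ}) (fun γ => by
      refine lt_trans ?_ hgood.unc
      have : {j | p j ∈ F γ} = p ⁻¹' (F γ : Set G) := rfl
      rw [this]
      exact ((F γ).finite_toSet.preimage p.injective.injOn).lt_aleph0) i₀
  -- the point of `B` near `d δ`
  let N : Set G := {x | ∃ γ < δ, x ∈ F γ}
  have hN : #N < κ := by
    have h1 : N ⊆ {x : G | ∃ γ, γ ≤ δ ∧ x ∈ F γ} := fun x ⟨γ, hγ, hx⟩ => ⟨γ, hγ.le, hx⟩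
    refine lt_of_le_of_lt (mk_le_mk_of_subset h1) ?_
    exact (hgood.iUnion_lt δ (fun γ => (F γ : Set G))
      (fun γ => lt_trans (Finset.finite_toSet _).lt_aleph0 hgood.unc)).trans_le hcard.le
  obtain ⟨y, hy⟩ := hf (N ∪ range p) (add_lt' hκ' (lt_trans hN (Order.lt_succ κ))
    (Order.lt_succ_of_le (mk_range_le.trans hcard.le)))
    (fun x => if x ∈ N then f (x * d δ) else c)
  have hyN : ∀ x ∈ N, f (x * y) = f (x * d δ) := by
    intro x hx
    have := hy x (Or.inl hx)
    simpa [hx] using this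
  have hyP : ∀ j, f (p j * y) = c := by
    intro j
    by_cases hj : p j ∈ N
    · rw [hyN _ hj]
      obtain ⟨γ, hγ, hx⟩ := hj
      exact hd1 δ j (h1 γ hγ j hx)
    · have := hy (p j) (Or.inr ⟨j, rfl⟩)
      simpa [hj] using this
  have hyB : y ∈ V := hBV (fun i => by rw [hyP i]; exact hc)
  obtain ⟨E, w, hE, hEV⟩ := hV y hyB
  have hbas : ∀ x : G, ∃ n : β, x ∈ E → f (x * y) ∈ b n ∧ b n ⊆ w x := by
    intro x
    by_cases hx : x ∈ E
    · obtain ⟨_, ⟨n, rfl⟩, hn1, hn2⟩ := hb.exists_subset_of_mem_open (hE x hx).2 (hE x hx).1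
      exact ⟨n, fun _ => ⟨hn1, hn2⟩⟩
    · obtain ⟨_, ⟨n, rfl⟩, -, -⟩ := hb.exists_subset_of_mem_open (mem_univ c) isOpen_univ
      exact ⟨n, fun h => absurd h hx⟩
  choose n hn' using hbas
  obtain ⟨γ, hγ, -, hγT⟩ := h3 ((E.filter (fun x => x ∈ N)).image (fun x => (x, n x)))
    (by
      intro q hq
      obtain ⟨x, hx, rfl⟩ := Finset.mem_image.1 hq
      exact (Finset.mem_filter.1 hx).2)
    (by
      intro q hq
      obtain ⟨x, hx, rfl⟩ := Finset.mem_image.1 hq
      have hx' := Finset.mem_filter.1 hx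
      simp only
      rw [← hyN x hx'.2]
      exact (hn' x hx'.1).1)
  -- the common point
  obtain ⟨h, hh⟩ := hf' (F γ ∪ E : Finset G)
    (lt_of_lt_of_le (Finset.finite_toSet _).lt_aleph0 hκ)
    (fun x => if x ∈ F γ then f (x * d γ) else f (x * y))
  have hhU : h ∈ U := by
    refine hFU γ h (fun x hx => ?_)
    have := hh x (by simp [hx])
    simp only [hx, if_true] at this
    rw [this]
    exact (hF γ x hx).2
  have hhV : h ∈ V := by
    refine hEV h (fun x hx => ?_)
    have hx2 := hh x (by simp [hx])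
    by_cases hxF : x ∈ F γ
    · simp only [hxF, if_true] at hx2
      rw [hx2]
      have := hγT (x, n x) (Finset.mem_image.2 ⟨x, Finset.mem_filter.2 ⟨hx, γ, hγ, hxF⟩, rfl⟩)
      exact (hn' x hx).2 this
    · simp only [hxF, if_false] at hx2
      rw [hx2]
      exact (hE x hx).2
  exact Set.disjoint_left.1 hUV hhU hhV

end Pool.Agent.K351
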