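import Pool.Agent.K351.Jones

/-! Normal orbits over small spaces are nowhere full above the weight. -/

namespace Pool.Agent.K351

open Cardinal Set Topology TopologicalSpace

universe u v

variable {G : Type u} {X : Type v} [CommGroup G] {f : G → X} [TopologicalSpace X]

/-- closedness of families following a pattern that no group element follows -/
lemma closed_tail {I : Type u} [LinearOrder I] (h : Good I) (hf : FullBelow (#I) f)
    {O : Set X} (hO : IsOpen O) {o c : X} (ho : o ∈ O) (hc : c ∉ O) (m : I → G) (a : G → X)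
    (d : I → G) (hd : ∀ i, ∀ j < i, f (m j * d i) = a (m j))
    (key : ∀ g : G, ∃ (j : I) (W : Set X), IsOpen W ∧ f (m j * g) ∈ W ∧ a (m j) ∉ W) :
    ClosedIn f (range d) := by
  intro g hg
  obtain ⟨j, W, hW, h1, h2⟩ := key g
  have hsm : #(d '' Iic j : Set G) < #I := lt_of_le_of_lt mk_image_le (h.seg' j)
  obtain ⟨x, hx, hy⟩ := sep_small h.reg.aleph0_le hf o c hsm (g := g)
    (fun ⟨i, _, hi⟩ => hg ⟨i, hi⟩)
  refine nbhd_inter' hO hW ⟨x, m j, by rw [hx]; exact ho, h1, fun k hkS hkO hkW => ?_⟩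
  obtain ⟨i, rfl⟩ := hkS
  rcases lt_or_ge j i with hji | hij
  · rw [hd i j hji] at hkW; exact h2 hkW
  · rw [hy _ ⟨i, hij, rfl⟩] at hkO; exact hc hkO

theorem not_T4_of_patch {μ : Cardinal.{u}} (hμ : ℵ₀ ≤ μ) (hf : FullBelow (Order.succ μ) f)
    {β : Type u} (hβ : #β ≤ μ) (b : β → Set X) (hb : IsTopologicalBasis (range b))
    [Nontrivial X] (P : Set G) (hP : #P = Order.succ μ) (p : G → X)
    (hpatch : ∀ N : Set G, #N ≤ μ → Disjoint N P → ∀ a : G → X,
      ∃ g : G, (∀ x ∈ N, f (x * g) = a x) ∧ ∀ x ∈ P, f (x * g) = p x) :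
    ¬ T4Space (orbit f) := by
  classical
  intro hT4
  have hreg : (Order.succ μ).IsRegular := isRegular_succ hμ
  have hunc : ℵ₀ < Order.succ μ := lt_of_le_of_lt hμ (Order.lt_succ μ)
  obtain ⟨O, o, c, hO, ho, hc⟩ := exists_open_of_T1 hunc.le hf
  have hR := r0_of_regular hunc.le hf
  have hoc : o ≠ c := fun h => hc (h ▸ ho)
  have hκG : Order.succ μ ≤ #G := card_group_ge hoc hf
  rcases hκG.eq_or_lt with heq | hlt
  · refine not_normal_of_full (by rw [← heq]; exact hreg) (by rw [← heq]; exact hunc)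
      (by rw [← heq]; exact hf) hO ho hc inferInstance
  set I := (Order.succ μ).ord.ToType with hI
  have hgood : Good I := good_toType hreg hunc
  have hcard : #I = Order.succ μ := mk_ord_toType _
  have hf' : FullBelow (#I) f := by rw [hcard]; exact hf
  have hκ : ℵ₀ ≤ #I := hgood.reg.aleph0_le
  obtain ⟨e⟩ : Nonempty (I ≃ P) := Cardinal.eq.1 (hcard.trans hP.symm)
  let x : I → G := fun i => (e i : G)
  have hxinj : Function.Injective x := fun i j h => e.injective (Subtype.ext h)
  have hxP : ∀ i, x i ∈ P := fun i => (e i).2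
  have hxsurj : ∀ v ∈ P, ∃ i, x i = v := fun v hv => ⟨e.symm ⟨v, hv⟩, by simp [x]⟩
  -- open sets missing the pattern
  have hOx : ∀ i : I, ∃ (W : Set X) (w : X), IsOpen W ∧ w ∈ W ∧ p (x i) ∉ W := by
    intro i
    by_cases hpi : p (x i) ∈ O
    · obtain ⟨W, hW, h1, h2⟩ := hR (p (x i)) c ⟨O, hO, hpi, hc⟩
      exact ⟨W, c, hW, h1, h2⟩
    · exact ⟨O, o, hO, ho, hpi⟩
  choose W w hWo hwW hpW using hOx
  -- the closed family
  obtain ⟨d, hd1, hd2, hD⟩ : ∃ d : I → G, (∀ i, ∀ j < i, f (x j * d i) = p (x j)) ∧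
      (∀ i, f (x i * d i) = w i) ∧ ClosedIn f (range d) := by
    by_cases hcase : ∀ M : Set G, #M ≤ #I → ∀ a : G → X, ∃ g : G, ∀ x ∈ M,
        ∀ W : Set X, IsOpen W → (f (x * g) ∈ W ↔ a x ∈ W)
    · have hd : ∀ i : I, ∃ d : G, (∀ j < i, f (x j * d) = p (x j)) ∧ f (x i * d) = w i := by
        intro i
        obtain ⟨d, hd⟩ := hf' (x '' Iic i) (lt_of_le_of_lt mk_image_le (hgood.seg' i))
          (fun y => if y = x i then w i else p y)
        refine ⟨d, fun j hj => ?_, ?_⟩
        · have := hd (x j) ⟨j, hj.le, rfl⟩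
          have hne : x j ≠ x i := fun h => hj.ne (hxinj h)
          simpa [hne] using this
        · simpa using hd (x i) ⟨i, le_refl i, rfl⟩
      choose d hd1 hd2 using hd
      refine ⟨d, hd1, hd2, ?_⟩
      intro g hg
      have hScard : #(range d ∪ {g} : Set G) ≤ #I := by
        refine (mk_union_le _ _).trans ?_
        rw [mk_singleton]
        exact add_le_of_le hκ mk_range_le (one_lt_aleph0.le.trans hκ)
      obtain ⟨y, hy⟩ := hcase (range d ∪ {g}) hScard (fun y => if y = g then o else c)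
      refine nbhd_inter hO ⟨y, y, ?_, ?_, fun k hk h1 _ => ?_⟩
      · have := (hy g (Or.inr rfl) O hO).2 (by simpa using ho)
        rwa [mul_comm]
      · have := (hy g (Or.inr rfl) O hO).2 (by simpa using ho)
        rwa [mul_comm]
      · rw [mul_comm] at h1
        have h2 : k ≠ g := fun h => hg (h ▸ hk)
        have := (hy k (Or.inl hk) O hO).1 h1
        simp only [h2, if_false] at this
        exact hc this
    · push Not at hcase
      obtain ⟨M, hM, a, hMa⟩ := hcase
      have hMne : M.Nonempty := by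
        obtain ⟨x, hx, -⟩ := hMa 1
        exact ⟨x, hx⟩
      have : Nonempty M := hMne.to_subtype
      obtain ⟨m, hm⟩ : ∃ m : I → M, Function.Surjective m := by
        obtain ⟨e⟩ := Cardinal.le_def _ _ |>.1 hM
        exact ⟨Function.invFun e, Function.invFun_surjective e.injective⟩
      -- translate the pattern away from the points `x i`
      obtain ⟨t, ht⟩ : ∃ t : G, ∀ i j, t * m i ≠ x j := by
        by_contra hcon
        push Not at hcon
        have h1 : (Set.univ : Set G) ⊆ range (fun q : I × I => x q.2 * (m q.1 : G)⁻¹) := by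
          intro t _
          obtain ⟨i, j, hij⟩ := hcon t
          exact ⟨(i, j), by simp only; rw [← hij, mul_inv_cancel_right]⟩
        have h2 : #G ≤ #I := by
          rw [← mk_univ (α := G)]
          refine (mk_le_mk_of_subset h1).trans (mk_range_le.trans ?_)
          rw [mk_prod]
          simp only [lift_id]
          exact mul_le_of_le hκ le_rfl le_rfl
        rw [hcard] at h2
        exact absurd hlt (not_lt.2 h2)
      let m' : I → G := fun i => t * m i
      let a' : G → X := fun v => a (t⁻¹ * v)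
      have ha' : ∀ i, a' (m' i) = a (m i) := fun i => by
        simp only [a', m', inv_mul_cancel_left]
      have hd : ∀ i : I, ∃ d : G, (∀ j < i, f (x j * d) = p (x j)) ∧ f (x i * d) = w i ∧
          ∀ j < i, f (m' j * d) = a' (m' j) := by
        intro i
        obtain ⟨d, hd⟩ := hf' (x '' Iic i ∪ m' '' Iio i)
          (add_lt' hκ (lt_of_le_of_lt mk_image_le (hgood.seg' i))
            (lt_of_le_of_lt mk_image_le (hgood.seg i)))
          (fun y => if y = x i then w i else if y ∈ range x then p y else a' y)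
        refine ⟨d, fun j hj => ?_, ?_, fun j hj => ?_⟩
        · have := hd (x j) (Or.inl ⟨j, hj.le, rfl⟩)
          have hne : x j ≠ x i := fun h => hj.ne (hxinj h)
          rw [if_neg hne, if_pos ⟨j, rfl⟩] at this
          exact this
        · have := hd (x i) (Or.inl ⟨i, le_refl i, rfl⟩)
          rwa [if_pos rfl] at this
        · have := hd (m' j) (Or.inr ⟨j, hj, rfl⟩)
          have h1 : m' j ≠ x i := ht j i
          have h2 : m' j ∉ range x := fun ⟨k, hk⟩ => ht j k hk.symm
          rw [if_neg h1, if_neg h2] at this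
          exact this
      choose d hd1 hd2 hd3 using hd
      refine ⟨d, hd1, hd2, closed_tail hgood hf' hO ho hc m' a' d hd3 ?_⟩
      intro g
      obtain ⟨y, hy, W, hW, hxW⟩ := hMa (t * g)
      obtain ⟨j, hj⟩ := hm ⟨y, hy⟩
      have hjx : (m j : G) = y := by rw [hj]
      have hfm : f (m' j * g) = f (y * (t * g)) := by
        simp only [m']
        rw [hjx, mul_comm t y, mul_assoc]
      rcases hxW with ⟨h1, h2⟩ | ⟨h1, h2⟩
      · exact ⟨j, W, hW, by rw [hfm]; exact h1, by rw [ha', hjx]; exact h2⟩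
      · obtain ⟨W', hW', h3, h4⟩ := hR _ _ ⟨W, hW, h2, h1⟩
        exact ⟨j, W', hW', by rw [hfm]; exact h3, by rw [ha', hjx]; exact h4⟩
  have hB : ClosedIn f {g | ∀ i, f (x i * g) ∉ W i} := by
    intro g hg
    simp only [mem_compl_iff, mem_ofPred_eq, not_forall, not_not] at hg
    obtain ⟨i, hi⟩ := hg
    exact nbhd_inter (hWo i) ⟨x i, x i, hi, hi, fun k hk h1 _ => hk i h1⟩
  have hdisj : Disjoint (range d) {g | ∀ i, f (x i * g) ∉ W i} := by
    rw [Set.disjoint_left]
    rintro _ ⟨i, rfl⟩ h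
    exact h i (by rw [hd2 i]; exact hwW i)
  obtain ⟨U, V, hU, hV, hDU, hBV, hUV⟩ :=
    exists_sep f (par_inj hκ hf' o c hoc) _ _ hD hB hdisj
  choose F u hF hFU using fun i => hU (d i) (hDU ⟨i, rfl⟩)
  have : Nonempty I := by
    by_contra hne
    have := not_nonempty_iff.1 hne
    have := hgood.unc
    rw [mk_eq_zero] at this
    exact absurd this (by simp)
  let i₀ : I := Classical.arbitrary I
  obtain ⟨δ, h0, h1, h2, h3⟩ := hgood.reflect
    (lt_of_le_of_lt hβ (lt_of_lt_of_le (Order.lt_succ μ) hcard.ge)) F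
    (fun (T : Finset (G × β)) i => ∀ q ∈ T, f (q.1 * d i) ∈ b q.2)
    (fun γ => {j | x j ∈ F γ}) (fun γ => by
      refine lt_trans ?_ hgood.unc
      have : {j | x j ∈ F γ} = x ⁻¹' (F γ : Set G) := rfl
      rw [this]
      exact ((F γ).finite_toSet.preimage hxinj.injOn).lt_aleph0) i₀
  let N : Set G := {x | ∃ γ < δ, x ∈ F γ}
  have hN : #N < #I := by
    have h1 : N ⊆ {x : G | ∃ γ, γ ≤ δ ∧ x ∈ F γ} := fun x ⟨γ, hγ, hx⟩ => ⟨γ, hγ.le, hx⟩
    refine lt_of_le_of_lt (mk_le_mk_of_subset h1) ?_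
    exact hgood.iUnion_lt δ (fun γ => (F γ : Set G))
      (fun γ => lt_trans (Finset.finite_toSet _).lt_aleph0 hgood.unc)
  have hN' : #(N \ P : Set G) ≤ μ := by
    refine (mk_le_mk_of_subset Set.sdiff_subset).trans ?_
    exact Order.lt_succ_iff.1 (lt_of_lt_of_eq hN hcard)
  obtain ⟨y, hy1, hyP⟩ := hpatch (N \ P) hN' Set.disjoint_sdiff_left (fun v => f (v * d δ))
  have hyN : ∀ v ∈ N, f (v * y) = f (v * d δ) := by
    intro v hv
    by_cases hvP : v ∈ P
    · obtain ⟨j, rfl⟩ := hxsurj v hvP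
      obtain ⟨γ, hγ, hx⟩ := hv
      rw [hyP _ hvP, hd1 δ j (h1 γ hγ j hx)]
    · exact hy1 v ⟨hv, hvP⟩
  have hyB : y ∈ V := hBV (fun i => by rw [hyP _ (hxP i)]; exact hpW i)
  obtain ⟨E, r, hE, hEV⟩ := hV y hyB
  have hbas : ∀ v : G, ∃ n : β, v ∈ E → f (v * y) ∈ b n ∧ b n ⊆ r v := by
    intro v
    by_cases hv : v ∈ E
    · obtain ⟨_, ⟨n, rfl⟩, hn1, hn2⟩ := hb.exists_subset_of_mem_open (hE v hv).2 (hE v hv).1
      exact ⟨n, fun _ => ⟨hn1, hn2⟩⟩
    · obtain ⟨_, ⟨n, rfl⟩, -, -⟩ := hb.exists_subset_of_mem_open (mem_univ c) isOpen_univ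
      exact ⟨n, fun h => absurd h hv⟩
  choose n hn' using hbas
  obtain ⟨γ, hγ, -, hγT⟩ := h3 ((E.filter (fun v => v ∈ N)).image (fun v => (v, n v)))
    (by
      intro q hq
      obtain ⟨v, hv, rfl⟩ := Finset.mem_image.1 hq
      exact (Finset.mem_filter.1 hv).2)
    (by
      intro q hq
      obtain ⟨v, hv, rfl⟩ := Finset.mem_image.1 hq
      have hv' := Finset.mem_filter.1 hv
      simp only
      rw [← hyN v hv'.2]
      exact (hn' v hv'.1).1)
  obtain ⟨h, hh⟩ := hf' (F γ ∪ E : Finset G)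
    (lt_trans (Finset.finite_toSet _).lt_aleph0 hgood.unc)
    (fun v => if v ∈ F γ then f (v * d γ) else f (v * y))
  have hhU : h ∈ U := by
    refine hFU γ h (fun v hv => ?_)
    have := hh v (by simp [hv])
    simp only [hv, if_true] at this
    rw [this]
    exact (hF γ v hv).2
  have hhV : h ∈ V := by
    refine hEV h (fun v hv => ?_)
    have hv2 := hh v (by simp [hv])
    by_cases hvF : v ∈ F γ
    · simp only [hvF, if_true] at hv2
      rw [hv2]
      have := hγT (v, n v) (Finset.mem_image.2 ⟨v, Finset.mem_filter.2 ⟨hv, γ, hγ, hvF⟩, rfl⟩)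
      exact (hn' v hv).2 this
    · simp only [hvF, if_false] at hv2
      rw [hv2]
      exact (hE v hv).2
  exact Set.disjoint_left.1 hUV hhU hhV

end Pool.Agent.K351
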