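import Pool.Agent.K351.Basic

/-! Orbits which are full below the cardinality of the group are not normal. -/

namespace Pool.Agent.K351

open Cardinal Set Topology

universe u v

lemma good_toType {κ : Cardinal.{u}} (hreg : κ.IsRegular) (hunc : ℵ₀ < κ) :
    Good κ.ord.ToType where
  wf := inferInstance
  reg := by rw [mk_ord_toType]; exact hreg
  unc := by rw [mk_ord_toType]; exact hunc
  seg := fun i => mk_Iio_lt i (by rw [mk_ord_toType, Ordinal.type_toType])

variable {G : Type u} {X : Type v} [CommGroup G] {f : G → X} [TopologicalSpace X]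

/-- Two families with the value `c` at more and more places cannot be separated, if the
index set enumerates the group. -/
lemma not_sep {I : Type u} [LinearOrder I] (h : Good I) (hf : FullBelow (#I) f) {c : X}
    (e : I → G) (he : Function.Surjective e) (a b : I → G)
    (ha : ∀ i, ∀ j < i, f (e j * a i) = c) (hb : ∀ i, ∀ j < i, f (e j * b i) = c)
    {U V : Set G} (hU : OpenIn f U) (hV : OpenIn f V) (hAU : ∀ i, a i ∈ U) (hBV : ∀ i, b i ∈ V)
    (hd : Disjoint U V) : False := by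
  classical
  choose FA uA hFA hUA using fun i => hU (a i) (hAU i)
  choose FB uB hFB hVB using fun i => hV (b i) (hBV i)
  choose k hk using he
  haveI : Nonempty I := by
    by_contra hne
    haveI := not_nonempty_iff.1 hne
    have := h.unc
    rw [mk_eq_zero] at this
    exact absurd this (by simp)
  let i₀ : I := Classical.arbitrary I
  obtain ⟨δ, h0, h1, h2⟩ := h.exists_closed (fun γ => ((FB γ).image k : Finset I)) (fun γ =>
    lt_trans (Finset.finite_toSet _).lt_aleph0 h.unc) i₀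
  obtain ⟨γ, hγ, -, hγR⟩ := finite_bdd h0 h2 ((FA δ).filter (fun x => k x < δ))
    (fun x γ => k x ≤ γ) (fun x γ γ' hle hx => hx.trans hle)
    (fun x hx => ⟨k x, (Finset.mem_filter.1 hx).2, le_rfl⟩)
  obtain ⟨γ', hγγ', hγ'⟩ := h2 γ hγ
  -- the witness
  obtain ⟨g, hg⟩ := hf (FA δ ∪ FB γ' : Finset G) (lt_trans (Finset.finite_toSet _).lt_aleph0 h.unc)
    (fun x => if x ∈ FA δ then f (x * a δ) else f (x * b γ'))
  have hgA : ∀ x ∈ FA δ, f (x * g) = f (x * a δ) := by
    intro x hx
    have := hg x (by simp [hx])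
    simpa [hx] using this
  have hgB : ∀ x ∈ FB γ', f (x * g) = f (x * b γ') := by
    intro x hx
    have hh := hg x (by simp [hx])
    by_cases hxA : x ∈ FA δ
    · simp only [hxA, if_true] at hh
      rw [hh]
      have hkx : k x < δ := h1 γ' hγ' (k x) (by simpa using ⟨x, hx, rfl⟩)
      have hkγ : k x ≤ γ := hγR x (Finset.mem_filter.2 ⟨hxA, hkx⟩)
      have e1 := ha δ (k x) hkx
      have e2 := hb γ' (k x) (lt_of_le_of_lt hkγ hγγ')
      rw [hk] at e1 e2
      rw [e1, e2]
    · simpa [hxA] using hh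
  have hgU : g ∈ U := hUA δ g (fun x hx => by rw [hgA x hx]; exact (hFA δ x hx).2)
  have hgV : g ∈ V := hVB γ' g (fun x hx => by rw [hgB x hx]; exact (hFB γ' x hx).2)
  exact Set.disjoint_left.1 hd hgU hgV

/-- **Main theorem.** -/
theorem not_normal_of_full (hreg : (#G).IsRegular) (hunc : ℵ₀ < #G) (hf : FullBelow (#G) f)
    {O : Set X} (hO : IsOpen O) {o c : X} (ho : o ∈ O) (hc : c ∉ O) :
    ¬ NormalSpace (orbit f) := by
  intro hn
  have hoc : o ≠ c := fun h => hc (h ▸ ho)
  set I := (#G).ord.ToType with hI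
  have hgood : Good I := good_toType hreg hunc
  have hcard : #I = #G := mk_ord_toType _
  obtain ⟨e⟩ : Nonempty (I ≃ G) := Cardinal.eq.1 hcard
  have hf' : FullBelow (#I) f := by rw [hcard]; exact hf
  have hκ := hgood.reg.aleph0_le
  obtain ⟨p, hp⟩ := exists_rec (β := G × G) hgood.wf
    (fun i g q => (∀ j < i, f (e j * q.1) = c ∧ f (e j * q.2) = c) ∧
      (∀ j (hj : j < i), q.1 ≠ (g j hj).2 ∧ q.2 ≠ (g j hj).1) ∧ q.1 ≠ q.2)
    (by
      intro i g
      have hM : #(e '' Iio i : Set G) < #I := lt_of_le_of_lt mk_image_le (hgood.seg i)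
      have hS1 : #(range (fun j : Iio i => (g j.1 j.2).2) : Set G) < #I :=
        lt_of_le_of_lt mk_range_le (hgood.seg i)
      have hS2 : #(range (fun j : Iio i => (g j.1 j.2).1) : Set G) < #I :=
        lt_of_le_of_lt mk_range_le (hgood.seg i)
      obtain ⟨q1, hq1, hq1'⟩ := avoid hκ hf' o c hoc hM hS1
      obtain ⟨q2, hq2, hq2'⟩ := avoid hκ hf' o c hoc hM (add_lt' hκ hS2 (single_lt hκ q1))
      refine ⟨(q1, q2), fun j hj => ⟨hq1' _ ⟨j, hj, rfl⟩, hq2' _ ⟨j, hj, rfl⟩⟩, ?_, ?_⟩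
      · intro j hj
        exact ⟨fun h => hq1 ⟨⟨j, hj⟩, h.symm⟩, fun h => hq2 (Or.inl ⟨⟨j, hj⟩, h.symm⟩)⟩
      · intro h
        exact hq2 (Or.inr h.symm))
  have hcov : ∀ g, ∃ j, f (e j * g) ∈ O := by
    intro g
    obtain ⟨g₀, hg₀⟩ := hf' {1} (single_lt hκ 1) (fun _ => o)
    have hg₀' : f g₀ = o := by simpa using hg₀ 1 rfl
    refine ⟨e.symm (g₀ * g⁻¹), ?_⟩
    rw [Equiv.apply_symm_apply, inv_mul_cancel_right, hg₀']
    exact ho
  have hA := closed_family hgood hf' hO ho hc e (fun i => (p i).1)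
    (fun i j hj => ((hp i).1 j hj).1) hcov
  have hB := closed_family hgood hf' hO ho hc e (fun i => (p i).2)
    (fun i j hj => ((hp i).1 j hj).2) hcov
  have hdisj : Disjoint (range (fun i => (p i).1)) (range (fun i => (p i).2)) := by
    rw [Set.disjoint_left]
    rintro _ ⟨i, rfl⟩ ⟨j, hij⟩
    rcases lt_trichotomy i j with hlt | heq | hgt
    · exact ((hp j).2.1 i hlt).2 hij
    · subst heq; exact (hp i).2.2 hij.symm
    · exact ((hp i).2.1 j hgt).1 hij.symm
  obtain ⟨U, V, hU, hV, hAU, hBV, hUV⟩ :=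
    exists_sep f (par_inj hκ hf' o c hoc) _ _ hA hB hdisj
  exact not_sep hgood hf' e e.surjective _ _ (fun i j hj => ((hp i).1 j hj).1)
    (fun i j hj => ((hp i).1 j hj).2) hU hV (fun i => hAU ⟨i, rfl⟩) (fun i => hBV ⟨i, rfl⟩) hUV

end Pool.Agent.K351
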