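import Pool.Agent.K351.Large
import Pool.Agent.K351.Separation

/-! Orbits which are full for sets of cardinality `ℵ₁` are not normal, whatever the space. -/

namespace Pool.Agent.K351

open Cardinal Set Topology TopologicalSpace

universe u v

variable {G : Type u} {X : Type v} [CommGroup G] {κ : Cardinal.{u}} {f : G → X}
  [TopologicalSpace X]

/-- an unbounded continuous function on a normal orbit -/
lemma exists_psi (hκ : ℵ₀ < κ) (hf : FullBelow κ f) {O : Set X} (hO : IsOpen O) {o c : X}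
    (ho : o ∈ O) (hc : c ∉ O) [NormalSpace (orbit f)] :
    ∃ (s : ℕ → G) (ψ : G → ℝ), (∀ n, ψ (s n) = n) ∧ ∀ T : Set ℝ, IsOpen T → OpenIn f (ψ ⁻¹' T) := by
  have hoc : o ≠ c := fun h => hc (h ▸ ho)
  have hinj := par_inj hκ.le hf o c hoc
  have hG : ℵ₀ ≤ #G := hκ.le.trans (card_group_ge hoc hf)
  have : Infinite G := Cardinal.infinite_iff.2 hG
  let s : ℕ ↪ G := Infinite.natEmbedding G
  have he : IsClosedEmbedding (fun n => par f (s n)) := by
    refine IsClosedEmbedding.of_continuous_injective_isClosedMap continuous_of_discreteTopology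
      (hinj.comp s.injective) ?_
    intro A _
    have h1 : (fun n => par f (s n)) '' A = par f '' (s '' A) := by
      rw [Set.image_image]
    rw [h1]
    refine isClosed_image f hinj _ (closed_small hκ.le hf hO ho hc ?_)
    exact lt_of_le_of_lt ((Set.to_countable A).image s).le_aleph0 hκ
  obtain ⟨g, hg⟩ := ContinuousMap.exists_extension' he (⟨fun n : ℕ => (n : ℝ),
    continuous_of_discreteTopology⟩ : C(ℕ, ℝ))
  refine ⟨s, fun x => g (par f x), fun n => ?_, fun T hT => ?_⟩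
  · exact congrFun hg n
  · exact openIn_preimage f _ (hT.preimage g.continuous)

omit [TopologicalSpace X] in
lemma openIn_translate [TopologicalSpace X] {U : Set G} (hU : OpenIn f U) (k : G) :
    OpenIn f {y | k * y ∈ U} := by
  classical
  intro g hg
  obtain ⟨F, u, hF, hFU⟩ := hU (k * g) hg
  refine ⟨F.image (fun x => x * k), fun x => u (x * k⁻¹), ?_, ?_⟩
  · intro x hx
    obtain ⟨x', hx', rfl⟩ := Finset.mem_image.1 hx
    simp only [mul_inv_cancel_right, mul_assoc x' k g]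
    exact hF x' hx'
  · intro h hh
    refine hFU (k * h) (fun x hx => ?_)
    have := hh (x * k) (Finset.mem_image_of_mem _ hx)
    simpa only [mul_inv_cancel_right, mul_assoc x k h] using this

lemma openIn_inter {U V : Set G} (hU : OpenIn f U) (hV : OpenIn f V) : OpenIn f (U ∩ V) := by
  classical
  intro g hg
  obtain ⟨F, u, hF, hFU⟩ := hU g hg.1
  obtain ⟨E, w, hE, hEV⟩ := hV g hg.2
  refine ⟨F ∪ E, fun x => (if x ∈ F then u x else Set.univ) ∩ (if x ∈ E then w x else Set.univ),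
    ?_, ?_⟩
  · intro x _
    refine ⟨IsOpen.inter ?_ ?_, ?_, ?_⟩
    · split_ifs with h
      exacts [(hF x h).1, isOpen_univ]
    · split_ifs with h
      exacts [(hE x h).1, isOpen_univ]
    · split_ifs with h
      exacts [(hF x h).2, trivial]
    · split_ifs with h
      exacts [(hE x h).2, trivial]
  · intro h hh
    refine ⟨hFU h (fun x hx => ?_), hEV h (fun x hx => ?_)⟩
    · have := (hh x (Finset.mem_union_left _ hx)).1
      rwa [if_pos hx] at this
    · have := (hh x (Finset.mem_union_right _ hx)).2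
      rwa [if_pos hx] at this

lemma openIn_of_local {U : Set G} (h : ∀ g ∈ U, ∃ V, OpenIn f V ∧ g ∈ V ∧ V ⊆ U) : OpenIn f U := by
  intro g hg
  obtain ⟨V, hV, hgV, hVU⟩ := h g hg
  obtain ⟨F, u, hF, hFV⟩ := hV g hgV
  exact ⟨F, u, hF, fun k hk => hVU (hFV k hk)⟩

/-- the Stone sets: all blocks carry a label, and every label except `l` is used at most once -/
def StoneSet {I : Type u} (ψ : G → ℝ) (e : I → G) (l : ℕ) : Set G :=
  {y | (∀ i, ∃ n : ℕ, |ψ (e i * y) - n| ≤ 1 / 3) ∧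
    ∀ i j, i ≠ j → ∀ n : ℕ, n ≠ l → |ψ (e i * y) - n| ≤ 1 / 3 → ¬ |ψ (e j * y) - n| ≤ 1 / 3}

lemma label_unique {a : ℝ} {m n : ℕ} (h1 : |a - n| ≤ 1 / 3) (h2 : |a - m| < 1 / 2) : m = n := by
  by_contra hne
  have h3 : (1 : ℝ) ≤ |(m : ℝ) - n| := by
    have : (1 : ℤ) ≤ |(m : ℤ) - n| := by
      apply Int.one_le_abs
      intro h
      exact hne (by omega)
    exact_mod_cast this
  have h4 : |(m : ℝ) - n| ≤ |a - n| + |a - m| := by
    have : (m : ℝ) - n = (a - n) - (a - m) := by ring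
    rw [this]
    exact abs_sub _ _
  linarith

lemma closed_stone {I : Type u} (ψ : G → ℝ) (hψ : ∀ T : Set ℝ, IsOpen T → OpenIn f (ψ ⁻¹' T))
    (e : I → G) (l : ℕ) : ClosedIn f (StoneSet ψ e l) := by
  refine openIn_of_local (fun g hg => ?_)
  by_cases h1 : ∀ i, ∃ n : ℕ, |ψ (e i * g) - n| ≤ 1 / 3
  · have h2 : ∃ i j, i ≠ j ∧ ∃ n : ℕ, n ≠ l ∧ |ψ (e i * g) - n| ≤ 1 / 3 ∧
        |ψ (e j * g) - n| ≤ 1 / 3 := by
      by_contra hcon
      push Not at hcon
      exact hg ⟨h1, fun i j hij n hn ha => not_le.2 (hcon i j hij n hn ha)⟩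
    obtain ⟨i, j, hij, n, hn, ha, hb⟩ := h2
    have hT : IsOpen {a : ℝ | |a - n| < 1 / 2} :=
      isOpen_lt (by fun_prop) continuous_const
    refine ⟨{y | e i * y ∈ ψ ⁻¹' {a : ℝ | |a - n| < 1 / 2}} ∩
      {y | e j * y ∈ ψ ⁻¹' {a : ℝ | |a - n| < 1 / 2}},
      openIn_inter (openIn_translate (hψ _ hT) _) (openIn_translate (hψ _ hT) _), ⟨?_, ?_⟩, ?_⟩
    · exact lt_of_le_of_lt ha (by norm_num)
    · exact lt_of_le_of_lt hb (by norm_num)
    · rintro y ⟨hy1, hy2⟩ ⟨hy3, hy4⟩
      obtain ⟨m, hm⟩ := hy3 i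
      obtain ⟨m', hm'⟩ := hy3 j
      have e1 := label_unique hm hy1
      have e2 := label_unique hm' hy2
      subst e1
      subst e2
      exact hy4 i j hij n hn hm hm'
  · push Not at h1
    obtain ⟨i, hi⟩ := h1
    have hclosed : IsOpen {a : ℝ | ∀ n : ℕ, 1 / 3 < |a - n|} := by
      have : {a : ℝ | ∀ n : ℕ, 1 / 3 < |a - n|} = (⋃ n : ℕ, Metric.closedBall (n : ℝ) (1 / 3))ᶜ := by
        ext a
        simp [Real.dist_eq]
      rw [this, isOpen_compl_iff]
      refine LocallyFinite.isClosed_iUnion ?_ (fun n => Metric.isClosed_closedBall)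
      intro a
      refine ⟨Metric.ball a 1, Metric.ball_mem_nhds a one_pos, ?_⟩
      refine (Set.finite_le_nat (Nat.ceil (a + 2))).subset ?_
      rintro n ⟨b, hb1, hb2⟩
      simp only [Metric.mem_closedBall, Metric.mem_ball, Real.dist_eq] at hb1 hb2
      have h3 := abs_le.1 hb1
      have h4 := abs_lt.1 hb2
      have h5 : (n : ℝ) ≤ a + 2 := by linarith [h3.1, h3.2, h4.1, h4.2]
      exact_mod_cast h5.trans (Nat.le_ceil _)
    refine ⟨{y | e i * y ∈ ψ ⁻¹' {a : ℝ | ∀ n : ℕ, 1 / 3 < |a - n|}},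
      openIn_translate (hψ _ hclosed) _, fun n => hi n, ?_⟩
    rintro y hy ⟨hy3, -⟩
    obtain ⟨n, hn⟩ := hy3 i
    exact absurd (hy n) (not_lt.2 hn)

/-- the finite approximations used in the proof -/
structure St (I : Type u) (G : Type u) where
  J : Finset I
  lam : I → ℕ
  C : Finset G

/-- admissible approximations -/
structure St.Valid {I : Type u} (N : Set G) (e : I → G) (t : St I G) : Prop where
  out : ∀ i, i ∉ t.J → t.lam i = 0
  two : ∀ i ∈ t.J, 2 ≤ t.lam i
  inj : ∀ i ∈ t.J, ∀ j ∈ t.J, t.lam i = t.lam j → i = j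
  blk : ∀ v ∈ t.C, ∀ i, v * (e i)⁻¹ ∈ N → i ∈ t.J

/-- extending a labelling of finitely many blocks -/
lemma extend_label {I : Type u} (J K : Finset I) (lam : I → ℕ)
    (h2 : ∀ i ∈ J, 2 ≤ lam i) (h3 : ∀ i ∈ J, ∀ j ∈ J, lam i = lam j → i = j) :
    ∃ (J' : Finset I) (lam' : I → ℕ), J ⊆ J' ∧ K ⊆ J' ∧ (∀ i ∈ J, lam' i = lam i) ∧
      (∀ i, i ∉ J' → lam' i = 0) ∧ (∀ i ∈ J', 2 ≤ lam' i) ∧
      (∀ i ∈ J', ∀ j ∈ J', lam' i = lam' j → i = j) := by
  classical
  refine ⟨J ∪ K, fun i => if i ∈ J then lam i else if i ∈ J ∪ K then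
    J.sup lam + 2 + (J ∪ K).toList.idxOf i else 0, Finset.subset_union_left,
    Finset.subset_union_right, fun i hi => by simp [hi], fun i hi => ?_, fun i hi => ?_, ?_⟩
  · have hiJ : i ∉ J := fun h => hi (Finset.mem_union_left _ h)
    simp only [hiJ, hi, if_false]
  · by_cases hiJ : i ∈ J
    · simp only [hiJ, if_true]; exact h2 i hiJ
    · simp only [hiJ, hi, if_false, if_true]; omega
  · intro i hi j hj hij
    have hsup : ∀ k ∈ J, lam k ≤ J.sup lam := fun k hk => Finset.le_sup hk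
    by_cases hiJ : i ∈ J <;> by_cases hjJ : j ∈ J
    · simp only [hiJ, hjJ, if_true] at hij
      exact h3 i hiJ j hjJ hij
    · simp only [hiJ, hjJ, hj, if_true, if_false] at hij
      have := hsup i hiJ
      omega
    · simp only [hiJ, hjJ, hi, if_true, if_false] at hij
      have := hsup j hjJ
      omega
    · simp only [hiJ, hjJ, hi, hj, if_true, if_false] at hij
      have h5 : (J ∪ K).toList.idxOf i = (J ∪ K).toList.idxOf j := by omega
      exact (List.idxOf_inj (Finset.mem_toList.2 hi)).1 h5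

theorem not_normal_of_full_aleph_one (hf : FullBelow (Order.succ (ℵ₁ : Cardinal.{u})) f)
    {O : Set X} (hO : IsOpen O) {o c : X} (ho : o ∈ O) (hc : c ∉ O) :
    ¬ NormalSpace (orbit f) := by
  classical
  intro hn
  have hoc : o ≠ c := fun h => hc (h ▸ ho)
  have hreg : (ℵ₁ : Cardinal.{u}).IsRegular := isRegular_aleph_one
  have hunc : ℵ₀ < (ℵ₁ : Cardinal.{u}) := aleph0_lt_aleph_one
  set I := (ℵ₁ : Cardinal.{u}).ord.ToType with hI
  have hgood : Good I := good_toType hreg hunc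
  have hcard : #I = ℵ₁ := mk_ord_toType _
  have hf' : FullBelow ℵ₁ f := hf.mono (Order.le_succ _)
  have hκ : ℵ₀ ≤ (ℵ₁ : Cardinal.{u}) := hunc.le
  have hGcard : ℵ₁ ≤ #G := card_group_ge hoc hf'
  obtain ⟨s, ψ, hs, hψ⟩ := exists_psi hunc hf' hO ho hc
  have hball : ∀ n : ℕ, IsOpen {a : ℝ | |a - n| < 1 / 3} := fun n =>
    isOpen_lt (by fun_prop) continuous_const
  choose F u hF hFU using fun n => hψ _ (hball n) (s n) (by simp [hs])
  let N : Set G := ⋃ n, (F n : Set G)
  have hN : N.Countable := Set.countable_iUnion (fun n => (F n).countable_toSet)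
  have hFN : ∀ n, ∀ x ∈ F n, x ∈ N := fun n x hx => Set.mem_iUnion.2 ⟨n, hx⟩
  -- disjoint blocks
  obtain ⟨e, he⟩ := exists_rec (β := G) hgood.wf
    (fun i g b => ∀ j (hj : j < i), ∀ x ∈ N, ∀ x' ∈ N, x * b ≠ x' * g j hj)
    (by
      intro i g
      have hIio : (Iio i).Countable := by
        rw [← le_aleph0_iff_set_countable]
        exact Order.lt_succ_iff.1
          (lt_of_lt_of_eq ((hgood.seg i).trans_le hcard.le) succ_aleph0.symm)
      have : Countable (Iio i) := hIio.to_subtype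
      have : Countable N := hN.to_subtype
      have hbad : (range (fun t : Iio i × N × N => (t.2.1 : G)⁻¹ * t.2.2 * g t.1.1 t.1.2)).Countable :=
        countable_range _
      have hne : ∃ b, b ∉ range (fun t : Iio i × N × N => (t.2.1 : G)⁻¹ * t.2.2 * g t.1.1 t.1.2) := by
        by_contra hcon
        push Not at hcon
        have h1 : (Set.univ : Set G).Countable := hbad.mono (fun b _ => hcon b)
        rw [← le_aleph0_iff_set_countable, mk_univ] at h1
        exact absurd (lt_of_lt_of_le hunc hGcard) (not_lt.2 h1)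
      obtain ⟨b, hb⟩ := hne
      refine ⟨b, fun j hj x hx x' hx' hxb => hb ⟨(⟨j, hj⟩, ⟨x, hx⟩, ⟨x', hx'⟩), ?_⟩⟩
      simp only
      rw [mul_assoc, ← hxb, inv_mul_cancel_left])
  have hblk : ∀ v i j, v * (e i)⁻¹ ∈ N → v * (e j)⁻¹ ∈ N → i = j := by
    intro v i j hi hj
    rcases lt_trichotomy i j with h | h | h
    · exact absurd (by rw [inv_mul_cancel_right, inv_mul_cancel_right]) (he j i h _ hj _ hi)
    · exact h
    · exact absurd (by rw [inv_mul_cancel_right, inv_mul_cancel_right]) (he i j h _ hi _ hj)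
  -- realising labellings
  have real : ∀ (lab : I → ℕ) (C : Set G), C.Countable → ∃ y : G,
      (∀ i, ∀ x ∈ N, f (x * e i * y) = f (x * s (lab i))) ∧
      (∀ v ∈ C, (∀ i, v * (e i)⁻¹ ∉ N) → f (v * y) = c) := by
    intro lab C hC
    have hM : #(range (fun t : I × N => (t.2 : G) * e t.1)) ≤ ℵ₁ := by
      refine mk_range_le.trans ?_
      rw [mk_prod, lift_id, lift_id, hcard]
      exact mul_le_of_le hκ le_rfl (hN.le_aleph0.trans hκ)
    have hMC : #(range (fun t : I × N => (t.2 : G) * e t.1) ∪ C : Set G) < Order.succ ℵ₁ := by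
      refine Order.lt_succ_of_le ((mk_union_le _ _).trans ?_)
      exact add_le_of_le hκ hM (hC.le_aleph0.trans hκ)
    obtain ⟨y, hy⟩ := hf _ hMC (fun v => if h : ∃ i, v * (e i)⁻¹ ∈ N then
      f (v * (e h.choose)⁻¹ * s (lab h.choose)) else c)
    refine ⟨y, fun i x hx => ?_, fun v hv hvN => ?_⟩
    · have h1 := hy (x * e i) (Or.inl ⟨(i, ⟨x, hx⟩), rfl⟩)
      have h2 : ∃ j, (x * e i) * (e j)⁻¹ ∈ N := ⟨i, by rwa [mul_inv_cancel_right]⟩
      have h3 : h2.choose = i :=
        hblk _ _ _ h2.choose_spec (by rwa [mul_inv_cancel_right])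
      rw [dif_pos h2, h3, mul_inv_cancel_right] at h1
      exact h1
    · have h1 := hy v (Or.inr hv)
      have h2 : ¬ ∃ j, v * (e j)⁻¹ ∈ N := fun ⟨j, hj⟩ => hvN j hj
      rw [dif_neg h2] at h1
      exact h1
  have hlab : ∀ (lab : I → ℕ) (y : G), (∀ i, ∀ x ∈ N, f (x * e i * y) = f (x * s (lab i))) →
      ∀ i, |ψ (e i * y) - lab i| < 1 / 3 := by
    intro lab y hy i
    refine hFU (lab i) (e i * y) (fun x hx => ?_)
    rw [← mul_assoc, hy i x (hFN _ x hx)]
    exact (hF (lab i) x hx).2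
  have hmem : ∀ (lab : I → ℕ) (y : G) (l : ℕ),
      (∀ i, ∀ x ∈ N, f (x * e i * y) = f (x * s (lab i))) →
      (∀ i j, lab i = lab j → i = j ∨ lab i = l) → y ∈ StoneSet ψ e l := by
    intro lab y l hy hl
    refine ⟨fun i => ⟨lab i, (hlab lab y hy i).le⟩, fun i j hij n hnl h1 h2 => ?_⟩
    have e1 : lab i = n := label_unique h1 (lt_trans (hlab lab y hy i) (by norm_num))
    have e2 : lab j = n := label_unique h2 (lt_trans (hlab lab y hy j) (by norm_num))
    rcases hl i j (e1.trans e2.symm) with h | h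
    · exact hij h
    · exact hnl (e1.symm.trans h)
  have hdisj : Disjoint (StoneSet ψ e 0) (StoneSet ψ e 1) := by
    rw [Set.disjoint_left]
    rintro y ⟨hy1, hy2⟩ ⟨-, hy3⟩
    choose m hm using hy1
    have hminj : Function.Injective m := by
      intro i j hij
      by_contra hne
      by_cases h0 : m i = 0
      · exact hy3 i j hne (m i) (by omega) (hm i) (by rw [hij]; exact hm j)
      · exact hy2 i j hne (m i) h0 (hm i) (by rw [hij]; exact hm j)
    have : Countable I := hminj.countable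
    have h1 : #I ≤ ℵ₀ := mk_le_aleph0
    exact absurd hgood.unc (not_lt.2 h1)
  obtain ⟨U, V, hU, hV, hAU, hBV, hUV⟩ := exists_sep f (par_inj hκ hf' o c hoc) _ _
    (closed_stone ψ hψ e 0) (closed_stone ψ hψ e 1) hdisj
  -- one step
  have step : ∀ t : {t : St I G // St.Valid N e t}, ∃ t' : {t : St I G // St.Valid N e t},
      t.1.J ⊆ t'.1.J ∧ (∀ i ∈ t.1.J, t'.1.lam i = t.1.lam i) ∧ t.1.C ⊆ t'.1.C ∧
      ∃ (y : G) (E : Finset G) (w : G → Set X), E ⊆ t'.1.C ∧
        (∀ i, ∀ x ∈ N, f (x * e i * y) = f (x * s (t.1.lam i))) ∧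
        (∀ v ∈ t.1.C, (∀ i, v * (e i)⁻¹ ∉ N) → f (v * y) = c) ∧
        (∀ x ∈ E, f (x * y) ∈ w x) ∧ ∀ h, (∀ x ∈ E, f (x * h) ∈ w x) → h ∈ U := by
    rintro ⟨t, ht⟩
    obtain ⟨y, hy1, hy2⟩ := real t.lam t.C t.C.countable_toSet
    have hyA : y ∈ StoneSet ψ e 0 := by
      refine hmem t.lam y 0 hy1 (fun i j hij => ?_)
      by_cases hi : i ∈ t.J
      · by_cases hj : j ∈ t.J
        · exact Or.inl (ht.inj i hi j hj hij)
        · right; rw [hij]; exact ht.out j hj
      · exact Or.inr (ht.out i hi)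
    obtain ⟨E, w, hE, hEU⟩ := hU y (hAU hyA)
    let idx : G → Finset I := fun v => if h : ∃ i, v * (e i)⁻¹ ∈ N then {h.choose} else ∅
    obtain ⟨J', lam', h1, h2, h3, h4, h5, h6⟩ :=
      extend_label t.J (E.biUnion idx) t.lam ht.two ht.inj
    refine ⟨⟨⟨J', lam', t.C ∪ E⟩, ⟨h4, h5, h6, ?_⟩⟩, h1, h3, Finset.subset_union_left, y, E, w,
      Finset.subset_union_right, hy1, fun v hv => hy2 v hv, fun x hx => (hE x hx).2, hEU⟩
    intro v hv i hvi
    rcases Finset.mem_union.1 hv with hv | hv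
    · exact h1 (ht.blk v hv i hvi)
    · refine h2 (Finset.mem_biUnion.2 ⟨v, hv, ?_⟩)
      have hex : ∃ i, v * (e i)⁻¹ ∈ N := ⟨i, hvi⟩
      have : i = hex.choose := hblk v _ _ hvi hex.choose_spec
      simp only [idx, dif_pos hex, Finset.mem_singleton]
      exact this
  choose nx hnJ hnl hnC ys Es ws hEC hy1 hy2 hyw hyU using step
  let t₀ : {t : St I G // St.Valid N e t} := ⟨⟨∅, fun _ => 0, ∅⟩,
    ⟨fun _ _ => rfl, by simp, by simp, by simp⟩⟩
  let q : ℕ → {t : St I G // St.Valid N e t} := fun k => Nat.rec t₀ (fun _ t => nx t) k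
  have hq : ∀ k, q (k + 1) = nx (q k) := fun k => rfl
  have hJ : ∀ k m, k ≤ m → (q k).1.J ⊆ (q m).1.J ∧
      (∀ i ∈ (q k).1.J, (q m).1.lam i = (q k).1.lam i) ∧ (q k).1.C ⊆ (q m).1.C := by
    intro k m hkm
    induction m, hkm using Nat.le_induction with
    | base => exact ⟨subset_rfl, fun _ _ => rfl, subset_rfl⟩
    | succ m hkm ih =>
      refine ⟨ih.1.trans (hnJ (q m)), fun i hi => ?_, ih.2.2.trans (hnC (q m))⟩
      exact (hnl (q m) i (ih.1 hi)).trans (ih.2.1 i hi)
  -- the limit labelling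
  let lam : I → ℕ := fun i => if h : ∃ k, i ∈ (q k).1.J then (q h.choose).1.lam i else 1
  have hlam : ∀ k, ∀ i ∈ (q k).1.J, lam i = (q k).1.lam i := by
    intro k i hi
    have hex : ∃ k, i ∈ (q k).1.J := ⟨k, hi⟩
    simp only [lam, dif_pos hex]
    have e1 := (hJ hex.choose _ (le_max_left hex.choose k)).2.1 i hex.choose_spec
    have e2 := (hJ k _ (le_max_right hex.choose k)).2.1 i hi
    rw [← e1, ← e2]
  have hlam1 : ∀ i, (¬ ∃ k, i ∈ (q k).1.J) → lam i = 1 := by
    intro i hi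
    simp only [lam, dif_neg hi]
  let C : Set G := ⋃ k, ((q k).1.C : Set G)
  have hC : C.Countable := Set.countable_iUnion (fun k => (q k).1.C.countable_toSet)
  obtain ⟨z, hz1, hz2⟩ := real lam C hC
  have hzB : z ∈ StoneSet ψ e 1 := by
    refine hmem lam z 1 hz1 (fun i j hij => ?_)
    by_cases hi : ∃ k, i ∈ (q k).1.J
    · by_cases hj : ∃ k, j ∈ (q k).1.J
      · obtain ⟨k, hk⟩ := hi
        obtain ⟨m, hm⟩ := hj
        left
        have hi' := (hJ k _ (le_max_left k m)).1 hk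
        have hj' := (hJ m _ (le_max_right k m)).1 hm
        refine (q (max k m)).2.inj i hi' j hj' ?_
        rw [← hlam _ i hi', ← hlam _ j hj', hij]
      · right; rw [hij]; exact hlam1 j hj
    · exact Or.inr (hlam1 i hi)
  obtain ⟨E, w, hE, hEV⟩ := hV z (hBV hzB)
  have hk : ∃ k, ∀ x ∈ E, x ∈ C → x ∈ (q k).1.C := by
    have : ∀ x : G, ∃ k, x ∈ C → x ∈ (q k).1.C := by
      intro x
      by_cases hx : x ∈ C
      · obtain ⟨k, hk⟩ := Set.mem_iUnion.1 hx
        exact ⟨k, fun _ => hk⟩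
      · exact ⟨0, fun h => absurd h hx⟩
    choose kk hkk using this
    exact ⟨E.sup kk, fun x hx hxC => (hJ (kk x) _ (Finset.le_sup hx)).2.2 (hkk x hxC)⟩
  obtain ⟨k, hk⟩ := hk
  -- agreement
  have hagree : ∀ x ∈ Es (q k), x ∈ E → f (x * ys (q k)) = f (x * z) := by
    intro x hx hxE
    have hxC : x ∈ C := Set.mem_iUnion.2 ⟨k + 1, hEC (q k) hx⟩
    have hxk := hk x hxE hxC
    by_cases hex : ∃ i, x * (e i)⁻¹ ∈ N
    · obtain ⟨i, hi⟩ := hex
      have hiJ := (q k).2.blk x hxk i hi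
      have e1 := hy1 (q k) i _ hi
      have e2 := hz1 i _ hi
      rw [inv_mul_cancel_right] at e1 e2
      rw [e1, e2, hlam k i hiJ]
    · push Not at hex
      rw [hy2 (q k) x hxk hex, hz2 x hxC hex]
  obtain ⟨h, hh⟩ := hf' (Es (q k) ∪ E : Finset G)
    (lt_trans (Finset.finite_toSet _).lt_aleph0 hunc)
    (fun x => if x ∈ Es (q k) then f (x * ys (q k)) else f (x * z))
  have hhU : h ∈ U := by
    refine hyU (q k) h (fun x hx => ?_)
    have := hh x (by simp [hx])
    simp only [hx, if_true] at this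
    rw [this]; exact hyw (q k) x hx
  have hhV : h ∈ V := by
    refine hEV h (fun x hx => ?_)
    have h2 := hh x (by simp [hx])
    by_cases hxE : x ∈ Es (q k)
    · simp only [hxE, if_true] at h2
      rw [h2, hagree x hxE hx]; exact (hE x hx).2
    · simp only [hxE, if_false] at h2
      rw [h2]; exact (hE x hx).2
  exact Set.disjoint_left.1 hUV hhU hhV

end Pool.Agent.K351
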